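import Pool.Agent.MP_8be872_ag.H88.Dev

/-! Vanishing for modules supported on the unstable locus. -/

namespace Pool.Agent.MP_8be872_ag.H88

open H38 H56

theorem deriv_det {P V : Type} [CommRing P] [Algebra ℂ P] [Fintype V] [DecidableEq V]
    (D : Derivation ℂ P P) (N : Matrix V V P) {a b : V} (hab : a ≠ b)
    (h : ∀ p i, D (N p i) = if p = a then -N b i else 0) : D N.det = 0 := by
  let F : P →+* DualNumber P :=
    { toFun := fun p => TrivSqZeroExt.inl p + TrivSqZeroExt.inr (D p)
      map_one' := by simp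
      map_mul' := fun p q => by ext <;> simp [mul_comm]
      map_zero' := by simp
      map_add' := fun p q => by ext <;> simp }
  have e : F.mapMatrix N = ((TrivSqZeroExt.inlHom P P).mapMatrix N).updateRow a
      ((TrivSqZeroExt.inlHom P P).mapMatrix N a +
        (-DualNumber.eps : DualNumber P) • (TrivSqZeroExt.inlHom P P).mapMatrix N b) := by
    refine Matrix.ext fun p i => ?_
    by_cases hp : p = a
    · subst hp
      ext <;> simp [F, h]
    · ext <;> simp [F, h, hp]
  have := F.map_det N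
  rw [e, Matrix.det_updateRow_add_smul_self _ hab, ← RingHom.map_det] at this
  simpa [F] using congrArg TrivSqZeroExt.snd this

section Unit

variable {V : Type} [DecidableEq V] {R : V × V → Prop} {x : V → G} {P : Type} [CommRing P]
  [Algebra ℂ P] {U : G → Submodule ℂ P} {δ : V × V → Derivation ℂ P P}

/-- The identification of the free module of rank one with the ring. -/
abbrev pr (P : Type) [CommRing P] : (Unit → P) →ₗ[P] P := LinearMap.proj ()

omit [DecidableEq V] in
theorem free0 (r : V × V) (m : Unit → P) (u : Unit) : freeAct δ 0 r m u = δ r (m u) := by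
  simp [freeAct]

theorem mem0 {γ : G} {m : Unit → P} : m ∈ freeW (0 : Unit → G) U γ ↔ m () ∈ U γ := by
  simp [freeW, Submodule.mem_pi, Unique.forall_iff]

omit [Algebra ℂ P] in
theorem pr_inj : Function.Injective (pr P) := fun _ _ h => funext fun _ => h

omit [Algebra ℂ P] in
theorem pr_surj : Function.Surjective (pr P) := fun a => ⟨fun _ => a, rfl⟩

theorem unit_rep (h : IsRep R x U fun r => (δ r).toLinearMap) :
    IsRep R x (freeW (0 : Unit → G) U) (freeAct δ 0) := by
  have e : freeW (0 : Unit → G) U =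
      (Submodule.orderIsoMapComap (LinearEquiv.funUnique Unit ℂ P)).symm ∘ U :=
    funext fun γ => Submodule.ext fun m => mem0
  refine ⟨?_, e ▸ h.indep.map_orderIso _, fun r r' hr hr' => ?_, fun r hr γ m hm => ?_⟩
  · rw [e]
    simp only [Function.comp_def]
    rw [← OrderIso.map_iSup, h.top, OrderIso.map_top]
  · refine LinearMap.ext fun m => funext fun u => ?_
    have := LinearMap.congr_fun (h.brk r r' hr hr') (m u)
    split_ifs at this ⊢ <;> simpa [free0] using this
  · rw [mem0, free0]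
    exact h.wt r hr γ _ (mem0.1 hm)

theorem unit_comap (h : IsRep R x U fun r => (δ r).toLinearMap) {J : Ideal P}
    (hJ : IsSub R U (fun r => (δ r).toLinearMap) (J.restrictScalars ℂ)) :
    IsSub R (freeW (0 : Unit → G) U) (freeAct δ 0) ((Submodule.comap (pr P) J).restrictScalars ℂ) :=
  ⟨homog_comap h.top h.indep (unit_rep h).top (unit_rep h).indep ((pr P).restrictScalars ℂ) 0
    (fun γ m hm => by rw [add_zero]; exact mem0.1 hm) hJ.homog, fun r hr m hm => by
      change freeAct δ 0 r m () ∈ J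
      rw [free0]
      exact hJ.stab r hr _ hm⟩

theorem unit_iff [Fintype V] [DecidablePred R] (ce : CEStmt) (hR : IsRoots R)
    (h : IsRep R x U fun r => (δ r).toLinearMap) {Z B : Submodule P (Unit → P)}
    (hZ : IsSub R (freeW (0 : Unit → G) U) (freeAct δ 0) (Z.restrictScalars ℂ))
    (hB : IsSub R (freeW (0 : Unit → G) U) (freeAct δ 0) (B.restrictScalars ℂ)) (hle : B ≤ Z)
    {I J : Ideal P} (hI : Z.map (pr P) = I) (hJ : B.map (pr P) = J) (γ : G) :
    Acyc R x (freeW (0 : Unit → G) U) (freeAct δ 0) (Z.restrictScalars ℂ) (B.restrictScalars ℂ) γ ↔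
      Acyc R x U (fun r => (δ r).toLinearMap) (I.restrictScalars ℂ) (J.restrictScalars ℂ) γ :=
  hI ▸ hJ ▸ transfer ce hR h (unit_rep h) ((pr P).restrictScalars ℂ) pr_inj
    (fun _ _ hm => mem0.1 hm) (fun r m => free0 r m ()) hZ hB hle γ

omit [Algebra ℂ P] in
theorem map_smul_top (g : P) :
    (Ideal.span {g} • (⊤ : Submodule P (Unit → P))).map (pr P) = Ideal.span {g} := by
  rw [Submodule.map_smul'', Submodule.map_top, LinearMap.range_eq_top.2 pr_surj, smul_eq_mul,
    Ideal.mul_top]

end Unit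

variable {A V W ι : Type} [Fintype A] [Fintype V] [Fintype W] [DecidableEq A] [DecidableEq V]
  [DecidableEq W] [DecidableEq ι] {vert : V → ι}

section Minor

omit [Fintype A] [Fintype W] [DecidableEq A] [DecidableEq V] [DecidableEq W] in
theorem col_wt (x : V ⊕ W → G) (t : A → G) {c : V → Pol0 A V W} (h : IsCol vert c) :
    ∃ ω, ∀ a, c a ∈ polW0 x t (ω - x (.inl a)) := by
  have hX : ∀ ε p q, mat0 ε p q ∈ polW0 x t (-(x p - x q + t ε)) := fun ε p q =>
    MvPolynomial.isWeightedHomogeneous_X ℂ (fun c => polWt x t 0 (some c)) (ε, p, q)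
  induction h with
  | base ε b j =>
    refine ⟨x (.inr b) - t ε, fun a => ?_⟩
    dsimp only
    split_ifs
    · convert hX ε (.inl a) (.inr b) using 2
      abel
    · exact Submodule.zero_mem _
  | step ε j c _ ih =>
    obtain ⟨ω, hω⟩ := ih
    refine ⟨ω - t ε, fun a => ?_⟩
    dsimp only
    split_ifs
    · refine Submodule.sum_mem _ fun b _ => ?_
      have : mat0 ε (.inl a) (.inl b) * c b ∈ polW0 x t _ :=
        MvPolynomial.IsWeightedHomogeneous.mul (hX ε (.inl a) (.inl b)) (hω b)
      convert this using 2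
      abel
    · exact Submodule.zero_mem _

omit [Fintype A] [Fintype V] [Fintype W] [DecidableEq A] in
theorem act0_mat (r : V × V) (ε : A) (p q : V ⊕ W) : act0 r (mat0 ε p q : Pol0 A V W) =
    (if q = .inl r.2 then mat0 ε p (.inl r.1) else 0) -
      if p = .inl r.1 then mat0 ε (.inl r.2) q else 0 :=
  MvPolynomial.mkDerivation_X ℂ _ _

omit [Fintype A] [Fintype W] [DecidableEq A] in
theorem col_act {c : V → Pol0 A V W} (h : IsCol vert c) {a b : V} (hab : vert a = vert b) :
    ∀ p, act0 (a, b) (c p) = if p = a then -c b else 0 := by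
  induction h with
  | base ε b' j =>
    intro p
    by_cases hp : p = a
    · subst hp
      by_cases hj : vert p = j <;> simp [hj, ← hab, act0_mat]
    · by_cases hj : vert p = j <;> simp [hj, hp, act0_mat]
  | step ε j c _ ih =>
    intro p
    by_cases hj : vert p = j
    · simp only [hj, if_true, map_sum, Derivation.leibniz, ih, act0_mat, smul_eq_mul, mul_sub,
        Finset.sum_add_distrib, Finset.sum_sub_distrib, Sum.inl.injEq, mul_ite, mul_zero,
        Finset.sum_ite_eq', Finset.mem_univ]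
      by_cases hp : p = a
      · subst hp
        simp [← hab, hj, mul_comm, ← add_sub_assoc]
      · simp [hp, mul_comm]
    · by_cases hp : p = a
      · subst hp
        simp [hj, ← hab]
      · simp [hj, hp]

omit [Fintype A] [Fintype W] [DecidableEq A] [DecidableEq W] in
theorem minor_wt (x : V ⊕ W → G) (t : A → G) {g : Pol0 A V W} (h : IsMinor vert g) :
    ∃ φ, g ∈ polW0 x t φ := by
  obtain ⟨c, hc, rfl⟩ := h
  choose ω hω using fun b => col_wt x t (hc b)
  refine ⟨∑ b, ω b - ∑ a, x (.inl a), ?_⟩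
  rw [Matrix.det_apply]
  refine Submodule.sum_mem _ fun s _ => Submodule.smul_of_tower_mem _ _ ?_
  have : ∏ i, c i (s i) ∈ polW0 x t _ :=
    MvPolynomial.IsWeightedHomogeneous.prod Finset.univ _ _ fun i _ => hω i (s i)
  rwa [Finset.sum_sub_distrib, Equiv.sum_comp s fun a => x (.inl a)] at this

omit [Fintype A] [Fintype W] [DecidableEq A] in
theorem minor_act {g : Pol0 A V W} (h : IsMinor vert g) {a b : V} (hab : vert a = vert b)
    (hne : a ≠ b) : act0 (a, b) g = 0 := by
  obtain ⟨c, hc, rfl⟩ := h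
  exact deriv_det _ _ hne fun p i => col_act (hc i) hab p

end Minor

omit [Fintype A] [Fintype V] [Fintype W] [DecidableEq A] [DecidableEq V] [DecidableEq W] in
theorem map_loc (g : Pol0 A V W) (J : Ideal (Pol0 A V W)) :
    (locSub g (Submodule.comap (pr _) J)).map (pr _) =
      J.map emb ⊔ Ideal.span {emb g * MvPolynomial.X none - 1} := by
  rw [locSub, Submodule.map_sup, map_smul_top, Submodule.map_span]
  congr 2
  ext y
  constructor
  · rintro ⟨_, ⟨z, hz, rfl⟩, rfl⟩
    exact ⟨z (), hz, rfl⟩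
  · rintro ⟨z, hz, rfl⟩
    exact ⟨_, ⟨fun _ => z, hz, rfl⟩, rfl⟩

theorem main (ce : CEStmt) (rep : RepStmt) (loc : LocStmt) (cell : CellStmt)
    {R : V × V → Prop} [DecidablePred R] {key : V → ℕ} {x : V ⊕ W → G} {t : A → G}
    {ξ : V → G →+ ℤ} {σ : G →+ ℤ} (hk : Function.Injective key)
    (hR : ∀ a b, R (a, b) ↔ vert a = vert b ∧ key b < key a) (hw : WtData x t ξ σ)
    (hR' : IsRoots R) (ht : G →+ ℤ) (hht : ∀ r, R r → ht (x (.inl r.2)) < ht (x (.inl r.1)))
    (J : Ideal (Pol0 A V W)) :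
    IsSub R (polW0 x t) (fun r => (act0 r).toLinearMap) (J.restrictScalars ℂ) →
    (∀ g, IsMinor vert g → g ∈ J.radical) →
    Deep R (fun a => x (.inl a)) (polW0 x t) (fun r => (act0 r).toLinearMap) ξ ⊤
      (J.restrictScalars ℂ) := by
  obtain ⟨r0, r1, -, -, r2⟩ := rep A V W R x t
  have hm : IsMod R (fun a => x (.inl a)) (polW0 x t) act0 (polW0 x t)
      fun r => (act0 r).toLinearMap :=
    ⟨r0, r0, fun r a m => by simp [add_comm, mul_comm], fun γ γ' a ha m hm =>
      MvPolynomial.IsWeightedHomogeneous.mul ha hm⟩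
  induction J using WellFoundedGT.induction with
  | ind J ih =>
  intro hJ hrad
  have ih' := fun J' (h : J < J') h' => ih J' h h' fun g hg => Ideal.radical_mono h.le (hrad g hg)
  let K : Pol0 A V W → ℕ → Ideal (Pol0 A V W) := fun g j =>
    Submodule.comap (LinearMap.toSpanSingleton _ _ (g ^ j)) J
  have hK : ∀ g j a, a ∈ K g j ↔ a * g ^ j ∈ J := fun _ _ _ => Iff.rfl
  have hJK : ∀ g j, J ≤ K g j := fun g j a ha => (hK g j a).2 (J.mul_mem_right _ ha)
  have hmono : ∀ g, Monotone (K g) := fun g => monotone_nat_of_le_succ fun j a ha => by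
    rw [hK, pow_succ, ← mul_assoc]
    exact J.mul_mem_right _ ha
  have step : ∀ φ, ∀ g ∈ polW0 x t φ, g ∉ J → (∀ r, R r → act0 r g ∈ J) → ∀ j,
      IsSub R (polW0 x t) (fun r => (act0 r).toLinearMap) ((K g j).restrictScalars ℂ) ∧
      Deep R (fun a => x (.inl a)) (polW0 x t) (fun r => (act0 r).toLinearMap) ξ
        ((K g j).restrictScalars ℂ) (J.restrictScalars ℂ) := by
    intro φ g hg hgJ hact
    have hs : ∀ j, IsSub R (polW0 x t) (fun r => (act0 r).toLinearMap)
        ((K g j).restrictScalars ℂ) := fun j =>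
      hm.colon hJ (MvPolynomial.IsWeightedHomogeneous.pow hg j) fun r hr => by
        change act0 r (g ^ j) ∈ J
        rw [Derivation.leibniz_pow]
        exact J.smul_of_tower_mem _ (J.mul_mem_left _ (hact r hr))
    refine fun j => ⟨hs j, ?_⟩
    induction j with
    | zero =>
      rw [show K g 0 = J from Ideal.ext fun a => by simp [hK]]
      exact .refl _
    | succ j ihj =>
      refine Deep.trans ce hR' r0 (hs _) (hs j) hJ (hJK g j) (hmono g j.le_succ) ?_ ihj
      refine hm.dev ce hR' σ ht (fun a => hw.sx _) hht (r2 ξ σ hw).2 (hmono g j.le_succ) (hs _)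
        (hs j) fun J' h1 h2 => ih' J' (lt_of_le_of_ne
          (fun a ha => h2 a fun z _ => hJK g j (J.mul_mem_right _ ha)) ?_) h1
      rintro rfl
      refine hgJ (h2 g fun z hz => ?_)
      rw [hK, smul_eq_mul, mul_comm g, mul_assoc, ← pow_succ']
      exact hz
  by_cases hmin : ∀ g, IsMinor vert g → g ∈ J
  swap
  · push Not at hmin
    obtain ⟨g, h1, h2⟩ := hmin
    obtain ⟨φ, hφ⟩ := minor_wt x t h1
    obtain ⟨l, hl⟩ := hrad g h1
    have := (step φ g hφ h2 (fun r hr => by
      rw [minor_act h1 ((hR r.1 r.2).1 hr).1 fun e => ((hR r.1 r.2).1 hr).2.ne (by rw [e])]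
      exact J.zero_mem) l).2
    rwa [show K g l = ⊤ from (Ideal.eq_top_iff_one _).2 (by simpa [hK] using hl)] at this
  by_cases htop : J = ⊤
  · rw [htop]
    exact .refl _
  obtain ⟨φ, g, C, hg, hgJ, hact, hφ, hC⟩ := cell A V W ι R vert key x t ξ σ hk hR hw J htop hJ hmin
  obtain ⟨n, hn⟩ := monotone_stabilizes_iff_noetherian.2 inferInstance ⟨K g, hmono g⟩
  obtain ⟨s1, s2⟩ := step φ g hg hgJ hact n
  refine Deep.trans ce hR' r0 (isSub_top r0) s1 hJ (hJK g n) le_top ?_ s2
  obtain ⟨C', hC'⟩ := ih' (K g n ⊔ Ideal.span {g}) (lt_of_le_of_ne ((hJK g n).trans le_sup_left)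
    fun e => hgJ (e ▸ Submodule.mem_sup_right (Ideal.subset_span rfl)))
    (hm.ext s1 hg fun r hr => hJK g n (hact r hr))
  obtain ⟨l1, l2, l3, l4, -, l5⟩ := loc A V W Unit R x t 0 0 φ g hR' hg (unit_rep r0)
    (unit_rep (r1 φ)) ⊤ (Submodule.comap (pr _) J) le_top (isSub_top (unit_rep r0)) (unit_comap r0 hJ)
    (fun r hr m => J.mul_mem_right _ (hact r hr)) (Submodule.comap (pr _) (K g n)) fun z =>
      ⟨fun hz => ⟨trivial, n, by simpa [hK, mul_comm] using hz⟩, fun ⟨_, l, hl⟩ => by
        have : z () ∈ K g (max n l) := hmono g (le_max_right n l) (by simpa [hK, mul_comm] using hl)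
        exact (hn _ (le_max_left n l)).ge this⟩
  have e0 : (⊤ : Submodule (Pol0 A V W) (Unit → Pol0 A V W)).map (pr _) = ⊤ := by
    rw [Submodule.map_top, LinearMap.range_eq_top.2 pr_surj]
  have e1 := Submodule.map_comap_eq_of_surjective pr_surj (K g n)
  refine ⟨max C C', fun γ hγ =>
    (unit_iff ce hR' r0 (Z := ⊤) (isSub_top (unit_rep r0)) l1 le_top e0 e1 γ).1
    ((acyc_of_equiv ce hR' (unit_rep (r1 φ)) (unit_rep r0) (l5 γ fun m => ?_)).2 ?_)⟩
  · refine (unit_iff ce hR' r0 (Z := ⊤) (isSub_top (unit_rep r0)) l2 le_top e0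
      (by rw [Submodule.map_sup, e1, map_smul_top]) _).2 (hC' _ fun a => ?_)
    have h1 := hγ a
    have h2 := nsmul_nonpos (hφ a) (m + 1)
    rw [map_add, map_nsmul]
    omega
  · refine (unit_iff ce hR' (r1 φ) l3 l4 (sup_le_sup_right (Submodule.span_mono ?_) _)
      (I := ⊤) ?_ (map_loc g J) γ).2 (hC γ fun a => by have := hγ a; omega)
    · rintro _ ⟨z, -, rfl⟩
      exact ⟨z, trivial, rfl⟩
    · have := map_loc g ⊤
      rwa [Submodule.comap_top, Ideal.map_top, top_sup_eq] at this

theorem van : CEStmt → RepStmt → FracStmt → LocStmt → CellStmt → VanStmt := by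
  intro ce rep _ loc cell A V W ι O _ _ _ _ _ _ _ _ _ R _ vert key x t ξ σ c κ hk hR hw hrep Z B
    hle hZ hB hl
  have hR' : IsRoots R := ⟨fun a h => by simpa using (hR a a).1 h, fun a b c h1 h2 => by
    rw [hR] at *
    exact ⟨h1.1.trans h2.1, h2.2.trans h1.2⟩⟩
  have hht : ∀ r, R r → (∑ a, key a • ξ a) (x (.inl r.2)) < (∑ a, key a • ξ a) (x (.inl r.1)) :=
    fun r hr => by simpa [AddMonoidHom.finsetSum_apply, hw.xx] using ((hR r.1 r.2).1 hr).2
  obtain ⟨r0, -, -, -, r2⟩ := rep A V W R x t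
  have hm : IsMod R (fun a => x (.inl a)) (polW0 x t) act0 (freeW c (polW0 x t))
      (freeAct act0 κ) := by
    refine ⟨r0, hrep, fun r a m => funext fun o => ?_, fun γ γ' a ha m hm o _ => ?_⟩
    · simp [freeAct, Finset.mul_sum, mul_comm (m o)]
      ring
    · change a * m o ∈ polW0 x t (γ + γ' - c o)
      rw [add_sub_assoc]
      exact MvPolynomial.IsWeightedHomogeneous.mul ha (hm o trivial)
  refine hm.dev ce hR' σ _ (fun a => hw.sx _) hht (fun l => ?_) hle hZ hB fun J h1 h2 =>
    main ce rep loc cell hk hR hw hR' _ hht J h1 fun g hg => (hl g hg).imp fun l h => h2 _ h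
  refine (Set.finite_iUnion fun o =>
    ((r2 ξ σ hw).2 (l - σ (c o))).image (· + c o)).subset fun γ ⟨h1, h2⟩ => ?_
  by_contra hc
  refine h2 ((Submodule.eq_bot_iff _).2 fun m hm => funext fun o => ?_)
  by_contra h0
  exact hc (Set.mem_iUnion.2 ⟨o, γ - c o, ⟨by rw [map_sub, h1],
    (Submodule.ne_bot_iff _).2 ⟨_, hm o trivial, h0⟩⟩, sub_add_cancel _ _⟩)

end Pool.Agent.MP_8be872_ag.H88
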