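import Pool.Agent.MP_8be872_ag.H88.FxMat

/-! Module Fx2: the quotient of the chart complex is the dg algebra of the fixed locus. -/

namespace Pool.Agent.MP_8be872_ag.H88.Fx

open Finset H38 H56 H63 MvPolynomial
open scoped Matrix

variable {Q : Quiv} {w v D : Fin Q.n → ℕ} {J : Type} [Fintype J] [DecidableEq J]
  {σ : Bas Q v ≃ Bas Q v} {d : Bas Q v → ℕ} {lab : Bas Q D → Bas Q v × ℕ}
  {e : Fin Q.n → ℕ → ℤ} {k : Kd Q} {p q : Nb Q w v D}

theorem Bf_eq (F : Pol (Arr Q) (Bas Q v) (Bas Q w)) :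
    Bf Q w v e F = mono (has (Kf w e)) ⊔ LinearMap.range (mul (F * X none - 1)) := by
  refine le_antisymm (ext_le ?_) (sup_le (has_ext ?_) ?_)
  · rintro _ (rfl | ⟨c, hc, rfl⟩) z
    · exact Submodule.mem_sup_right ⟨z, rfl⟩
    · exact Submodule.mem_sup_left
        (has_apply (gn_mem_words (g := .inl (some c)) (has_single.2 ⟨c, hc, rfl⟩)) z)
  · rintro _ ⟨c, hc, rfl⟩
    exact ⟨_, rfl, Ideal.subset_span (Or.inr ⟨c, hc, rfl⟩)⟩
  · rintro _ ⟨z, rfl⟩
    exact mul_ext (Ideal.subset_span (Or.inl rfl)) z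

theorem lvk_sv (h : Sv k) : lvk d lab k p q = lv d lab q - lv d lab p := by
  rcases h with ⟨ε, rfl⟩ | rfl | rfl <;> exact add_zero _

theorem sv_of_top (h : shS lab k p q) (hq : blk q ≠ 0) : Sv k := by
  rcases k with (ε | _ | _) | (ε | _ | _)
  · exact Or.inl ⟨ε, rfl⟩
  · exact absurd h.1.2 hq
  · exact absurd h.1.2 hq
  · exact absurd h.1.2 hq
  · exact Or.inr (Or.inr rfl)
  · exact Or.inr (Or.inl rfl)

open Classical in
theorem lin_nu {τ : Bas Q D} (h : shS lab k p (.inl τ) ∧ lvk d lab k p (.inl τ) = 0 ∧ k ≠ kc) :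
    (lin (nuF d lab (gg k p (.inl τ))) : OpQ Q w v D J) = gn (gg k p (.inl τ)) -
      if (∃ ε, k = kx ε) ∨ k = ke then ∑ p', (al0 lab ^ ((lab τ).2 + 1)) p' p •
        gn (gg k p' (.inr (.inl (lab τ).1))) else 0 := by
  rw [nuF, ofM_gg, if_pos h, lin_sub, lin_single]
  split_ifs
  · rw [lin_sum]
  · rw [lin_zero]

theorem lin_nu_cases (g : Ix Q w v D J ⊕ Ix Q w v D J) : (lin (nuF d lab g) : OpQ Q w v D J) = 0 ∨
    ∃ k p τ, (shS lab k p (.inl τ) ∧ lvk d lab k p (.inl τ) = 0 ∧ k ≠ kc) ∧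
      g = gg k p (.inl τ) := by
  rcases gen_cases g with ⟨k, p, q, rfl⟩ | ⟨j, rfl⟩ | ⟨j, rfl⟩
  · by_cases h : shS lab k p q ∧ lvk d lab k p q = 0 ∧ k ≠ kc
    · rcases q with τ | q
      · exact Or.inr ⟨k, p, τ, h, rfl⟩
      · rw [nuF, ofM_gg, if_pos h]
        exact Or.inl lin_zero
    · rw [nuF, ofM_gg, if_neg h]
      exact Or.inl lin_zero
  · exact Or.inl lin_zero
  · exact Or.inl lin_zero

/-- The generators on the slice that correspond to the generators on the fixed locus. -/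
def Th (σ : Bas Q v ≃ Bas Q v) (d : Bas Q v → ℕ) (lab : Bas Q D → Bas Q v × ℕ) (j₀ : J)
    (g' : Option (Co Q w v) ⊕ Of Q v e) (g : Ix Q w v D J ⊕ Ix Q w v D J) : Prop :=
  (g' = .inl none ∧ g = tv j₀) ∨ ∃ k p q, Ent e k (fg σ lab p) (fg σ lab q) g' ∧
    lv d lab p = lv d lab q ∧ blk q ≠ 0 ∧ g = gg k p q

/-- The scaling of the inverse of the cutting function. -/
def scl (u : ℂ) : Option (Co Q w v) ⊕ Of Q v e → ℂ
  | .inl none => u
  | _ => 1

variable (H : Dat σ d lab e) (j₀ : J) (u : ℂ)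

variable (w) in
/-- The restriction to the fixed locus. -/
noncomputable def Dat.rho : Ix Q w v D J ⊕ Ix Q w v D J → Module.End ℂ (Mf Q w v e) :=
  ofM (fun k => (H.lay w).Tp (Yk w e k)) (fun j => if j = j₀ then u • gn (.inl none) else 0) 0

variable (w) in
/-- The restriction of the even coordinates. -/
noncomputable def Dat.rho0 : Ix Q w v D J → Pol (Arr Q) (Bas Q v) (Bas Q w)
  | .inl (.inl ε, p, q) => (H.lay w).Tp (xk w e ε) p q
  | .inl (.inr _, _, _) => 0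
  | .inr j => if j = j₀ then C u * X none else 0

omit [Fintype J] in
theorem Dat.rho_gg (k : Kd Q) (p q : Nb Q w v D) :
    H.rho w j₀ u (gg k p q) = (H.lay w).Tp (Yk w e k) p q := ofM_gg _ _ _ _ _ _

omit [Fintype J] in
theorem Dat.rho_inl (i : Ix Q w v D J) : H.rho w j₀ u (.inl i) = mul (H.rho0 w j₀ u i) := by
  rcases i with ⟨ε | s, p, q⟩ | j
  · exact (apply_ite mul _ _ _).trans (if_congr Iff.rfl rfl (map_zero mulA)) |>.symm
  · exact (ite_self _).trans (map_zero mulA).symm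
  · refine ((apply_ite mul _ _ _).trans (if_congr Iff.rfl ?_ (map_zero mulA))).symm
    rw [mul_mul, mul_C, ← Algebra.smul_def]
    rfl

omit [Fintype J] in
theorem Dat.rho_cases (k : Kd Q) (p q : Nb Q w v D) : H.rho w j₀ u (gg k p q) = 0 ∨
    ∃ g, Ent e k (fg σ lab p) (fg σ lab q) g ∧ lv d lab p = lv d lab q ∧
      H.rho w j₀ u (gg k p q) = gn g := by
  rw [H.rho_gg]
  by_cases hl : lv d lab p = lv d lab q
  · rcases Yk_cases (e := e) k (fg σ lab p) (fg σ lab q) with ⟨g, h⟩ | h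
    · exact Or.inr ⟨g, h, hl, (if_pos hl).trans h.val⟩
    · exact Or.inl ((if_pos hl).trans h)
  · exact Or.inl (if_neg hl)

omit [Fintype J] in
theorem Dat.rho_wt (φ : J → G) (g : Ix Q w v D J ⊕ Ix Q w v D J) :
    H.rho w j₀ u g ∈ words fun μ =>
      ws (wf Q w v e (φ j₀)) μ = wt (xs σ d lab) φ g ∧ od μ = g.isRight := by
  rcases gen_cases g with ⟨k, p, q, rfl⟩ | ⟨j, rfl⟩ | ⟨j, rfl⟩
  · rcases H.rho_cases j₀ u k p q with h | ⟨g, h1, h2, h⟩ <;> rw [h]
    · exact Submodule.zero_mem _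
    · exact gn_mem_words ⟨(ws_single _ _).trans (h1.wt h2 φ _).symm,
        (od_single _).trans (h1.par.symm.trans (gg_isRight k p q).symm)⟩
  · by_cases hj : j = j₀
    · exact TL.of_eq (Submodule.smul_mem _ u (gn_mem_words (g := .inl none)
        ⟨(ws_single _ _).trans (hj ▸ rfl), od_single _⟩)) (if_pos hj)
    · exact TL.of_eq (Submodule.zero_mem _) (if_neg hj)
  · exact Submodule.zero_mem _

omit [Fintype J] in
theorem Dat.rho_sc : Sc (H.rho w j₀ u) :=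
  sc_of fun g => words_le (fun _ a => a.2) (H.rho_wt j₀ u 0 g)

omit [Fintype J] in
theorem Dat.rho_YS (hk : Sv k) :
    YS lab (fun k p q => H.rho w j₀ u (gg k p q)) k = (H.lay w).Tp (Yk w e k) := by
  simp only [H.rho_gg]
  exact H.YS_Tp hk

theorem Dat.rho_nu (g : Ix Q w v D J ⊕ Ix Q w v D J) : ∃ a,
    (lin (nuF d lab g) : OpQ Q w v D J) ∈ (words fun μ => μ (ev j₀) = 0 ∧ od μ = a) ∧
      lift (H.rho w j₀ u) (lin (nuF d lab g) one) = 0 := by
  rcases lin_nu_cases (d := d) (lab := lab) g with h | ⟨k, p, τ, h, rfl⟩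
  · rw [h]
    exact ⟨true, Submodule.zero_mem _, map_zero _⟩
  have h1 : ∀ p q, (gn (gg k p q) : OpQ Q w v D J) ∈
      words fun μ => μ (ev j₀) = 0 ∧ od μ = k.isRight := fun p q => gn_mem_words
    ⟨Pi.single_eq_of_ne (gg_ne k p q j₀).symm _, (od_single _).trans (gg_isRight k p q)⟩
  have h2 : ∀ p q, lift (H.rho w j₀ u) (gn (gg k p q) one) = (H.lay w).Tp (Yk w e k) p q :=
    fun p q => by rw [lift_gn (H.rho_sc j₀ u), lift_one, mul_one, H.rho_gg]
  rw [lin_nu h]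
  split_ifs with hk
  · refine ⟨_, Submodule.sub_mem _ (h1 _ _)
      (Submodule.sum_mem _ fun p' _ => Submodule.smul_mem _ _ (h1 _ _)), ?_⟩
    rw [LinearMap.sub_apply, LinearMap.sum_apply, map_sub, map_sum, h2, sub_eq_zero,
      (H.lay w).toe (H.Yk_tri k) p (q := .inl τ) (q' := .inr (.inl (lab τ).1))
        (n := (lab τ).2 + 1) rfl (by simp [Dat.lay, lv]) (H.eC_inl (w := w) _).symm]
    refine sum_congr rfl fun p' _ => ?_
    rw [LinearMap.smul_apply, map_smul, h2, H.al0_eq, Lay.sh_pow, Lay.sh, Lay.sh]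
    split_ifs
    · rw [one_mul, one_smul]
    · rw [zero_mul, zero_smul]
  · rw [sub_zero, h2]
    refine ⟨_, h1 _ _, ite_eq_right_iff.2 fun _ => (Yk_cases k _ _).resolve_left ?_⟩
    rintro ⟨_, h3⟩
    exact h3.sv.elim (fun h4 => hk (Or.inl h4)) fun h4 => h4.elim h.2.2 fun h5 => hk (Or.inr h5)

include H in
theorem Dat.cl (g : Ix Q w v D J ⊕ Ix Q w v D J) (hg : AlS lab g ∨ g = tv j₀) :
    lvNe d lab g ∨ gn g ∈ Submodule.span ℂ {m : OpQ Q w v D J |
      (∃ (g' : Option (Co Q w v) ⊕ Of Q v e) (g₁ : _), Th σ d lab j₀ g' g₁ ∧ m = gn g₁) ∨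
        ∃ g₀, m = lin (nuF d lab g₀)} := by
  rcases hg with hg | rfl
  swap
  · exact Or.inr (Submodule.subset_span (Or.inl ⟨_, _, Or.inl ⟨rfl, rfl⟩, rfl⟩))
  refine or_iff_not_imp_left.2 fun h0 => ?_
  have h1 : lvG d lab g = 0 := of_not_not fun h => h0 ⟨hg, h⟩
  have key : ∀ (k : Kd Q) (p q : Nb Q w v D), shS lab k p q → blk q ≠ 0 →
      lv d lab p = lv d lab q → ∃ g' : Option (Co Q w v) ⊕ Of Q v e, Th σ d lab j₀ g' (gg k p q) :=
    fun k p q h hq hl => (H.ent_of_sh h hq hl).imp fun g' h' => Or.inr ⟨k, p, q, h', hl, hq, rfl⟩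
  rcases gen_cases g with ⟨k, p, q, rfl⟩ | ⟨j, rfl⟩ | ⟨j, rfl⟩
  · rw [AlS, ofM_gg] at hg
    rw [lvG, ofM_gg] at h1
    rcases q with τ | q
    · have h2 := lin_nu (J := J) ⟨hg, h1, fun h => top_of_c (h ▸ hg) rfl⟩
      rw [eq_add_of_sub_eq h2.symm]
      refine Submodule.add_mem _ (Submodule.subset_span (Or.inr ⟨_, rfl⟩)) ?_
      split_ifs with hk
      · refine Submodule.sum_mem _ fun p' _ => ?_
        rw [H.al0_eq, Lay.sh_pow, Lay.sh]
        split_ifs with h3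
        · have h4 : blk (.inr (.inl (lab τ).1) : Nb Q w v D) ≠ 0 := by simp [blk]
          rw [lvk_sv (hk.imp_right Or.inr)] at h1
          have h6 : lv d lab p' = lv d lab p + ((lab τ).2 + 1 : ℕ) := h3.2
          have h7 : lv d lab (.inl τ : Nb Q w v D) = d (lab τ).1 - ((lab τ).2 + 1) := rfl
          obtain ⟨g', h5⟩ := key k p' (.inr (.inl (lab τ).1)) (H.sh_top hk hg h3.1 rfl h4) h4
            (show _ = (d (lab τ).1 : ℤ) by omega)
          exact Submodule.smul_mem _ _ (Submodule.subset_span (Or.inl ⟨g', _, h5, rfl⟩))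
        · rw [zero_smul]
          exact Submodule.zero_mem _
      · exact Submodule.zero_mem _
    · have h4 : blk (.inr q : Nb Q w v D) ≠ 0 := by rcases q with a | a <;> simp [blk]
      rw [lvk_sv (sv_of_top hg h4)] at h1
      obtain ⟨g', h5⟩ := key k p _ hg h4 (by omega)
      exact Submodule.subset_span (Or.inl ⟨g', _, h5, rfl⟩)
  · exact hg.elim
  · exact hg.elim

omit [Fintype J] in
theorem Dat.res_a : (Ypol ka).map ((aeval (H.rho0 w j₀ u)).comp (resS lab)).toRingHom =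
    (H.lay w).sh _ 1 := by
  ext1 p q
  have h0 : (H.lay w).sh (Pol (Arr Q) (Bas Q v) (Bas Q w)) 1 p q = C (al0 lab p q) := by
    rw [H.al0_eq, Lay.sh, Lay.sh]
    split_ifs
    · exact C_1.symm
    · exact C_0.symm
  rw [h0, Matrix.map_apply, Ypol, msk]
  split_ifs with h
  · simp only [gg, Sum.map_inl, Sum.elim_inl, AlgHom.toRingHom_eq_coe, RingHom.coe_coe,
      AlgHom.comp_apply, resS, aeval_X]
    split_ifs with h1
    · rw [aeval_X, h1 q, C_0]
      rfl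
    · exact aeval_C _ _
  · rw [map_zero]
    rcases q with τ | q
    · rw [H.al0_eq, Lay.sh, if_neg fun h1 => h ⟨(H.arrow_iff _ _ _).2 ⟨_, _, h1.1, rfl, rfl⟩, rfl⟩,
        C_0]
    · exact C_0.symm

omit [Fintype J] in
theorem Dat.res_x (ε : Arr Q) :
    (Ypol (kx ε)).map ((aeval (H.rho0 w j₀ u)).comp (resS lab)).toRingHom =
      (H.lay w).Tp (xk w e ε) := by
  ext1 p q
  rw [Matrix.map_apply, Ypol, msk]
  split_ifs with h
  · simp only [gg, Sum.map_inl, Sum.elim_inl, AlgHom.toRingHom_eq_coe, RingHom.coe_coe,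
      AlgHom.comp_apply, resS, aeval_X]
    rfl
  · rw [map_zero]
    exact (ite_eq_right_iff.2 fun hl => xk_neg fun h1 =>
      h (H.sh_of_ent (.x ε _ _ h1) hl nofun).1).symm

theorem Dat.rr (P : Bas Q v → Pth Q w) : ∃ u : ℂ, u * u = 1 ∧
    lo (H.rho w j₀ u) (pol (resS lab (FP P) * X (.inr j₀) - 1)) -
      pol (emb (Fold P) * X none - 1) ∈ mono (has (Kf w e)) := by
  obtain ⟨u, hu⟩ := H.det_eq (A := Pol (Arr Q) (Bas Q v) (Bas Q w)) P
  refine ⟨(u : ℤ), by rw [← Int.cast_mul, ← Units.val_mul, Int.units_mul_self]; simp, ?_⟩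
  have h1 := hu (fun k => (Ypol k).map ((aeval (H.rho0 w j₀ (u : ℤ))).comp (resS lab)).toRingHom)
    (xk w e) (H.res_a j₀ (u : ℤ)) (H.res_x j₀ (u : ℤ))
  have h2 := Fold_map ((kill (Kf w e)).comp emb).toRingHom P
  have h3 : (fun ε => (mat0 ε).map ((kill (Kf w e)).comp emb).toRingHom) = xk (v := v) w e := by
    funext ε
    ext1 a b
    exact congrArg (kill (Kf w e)) (rename_X _ _)
  rw [h3, ← h1, ← Fmat_map, ← RingHom.mapMatrix_apply, ← RingHom.map_det] at h2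
  have h4 : kill (Kf (v := v) w e) (X none) = X none := (aeval_X _ _).trans (if_neg nofun)
  have h5 : aeval (H.rho0 w j₀ (u : ℤ)) (resS lab (FP P) * X (.inr j₀) - 1) =
      kill (Kf w e) (emb (Fold P) * X none - 1) := by
    rw [map_sub, map_sub, map_one, map_one, map_mul, map_mul, h4, aeval_X,
      show kill (Kf w e) (emb (Fold P)) = _ from h2, Dat.rho0, if_pos rfl, map_intCast,
      ← mul_assoc, mul_comm _ ((u : ℤ) : Pol (Arr Q) (Bas Q v) (Bas Q w))]
    rfl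
  have h6 := (kill_sub (Kf w e) (emb (Fold P) * X none - 1)).1
  rw [← mul_one_eq (_ * _ - 1), lo, LinearMap.comp_apply, LinearMap.applyₗ_apply_apply, lift_mul (H.rho_sc j₀ _) (H.rho_inl j₀ _), lift_one, mul_one, mul_one_eq, h5, ← neg_sub]
  exact Submodule.neg_mem _ (TL.of_eq h6 (Pi.single_sub _ _ _).symm)

theorem fx2 : DSqStmt → SlFStmt → ToepStmt → Fx2Stmt := by
  intro hD hS _ Q w v D J _ _ σ d lab m P φ₀ f φ j₀ e C S γ n cx cx' hn
  have H : Dat σ d lab fun i a => e i a :=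
    ⟨C.isLab, C.vert, fun a => congrArg Nat.cast (S.val a), S.ord⟩
  obtain ⟨u, hu, hr⟩ := H.rr j₀ P
  obtain rfl := C.wj
  rw [Bf_eq] at cx' hn
  refine IsoD.chi (Θ := Th σ d lab j₀) (sc := scl u) (ρ := H.rho w j₀ u)
    ⟨(hS Q w v D J σ d lab m C.isLab C.vert C.const).1 φ f C.hom, H.rho_wt j₀ u φ, fun _ => rfl,
      fun g hg => ?_, H.rho_nu j₀ u, fun g' hg => ?_, ?_, ?_, H.cl j₀, C.fj ▸ hr, ?_, ?_⟩ cx cx' hn
  · rcases gen_cases g with ⟨k, p, q, rfl⟩ | ⟨j, rfl⟩ | ⟨j, rfl⟩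
    · refine ⟨gg_ne _ _ _ _, (H.rho_cases j₀ u k p q).resolve_right fun ⟨_, h1, h2, _⟩ => hg.2 ?_⟩
      rw [lvG, ofM_gg, lvk_sv h1.sv, h2, sub_self]
    · exact hg.1.elim
    · exact hg.1.elim
  · rcases ent_of_notK hg with rfl | ⟨k, a, b, h⟩
    · exact ⟨_, Or.inl ⟨rfl, rfl⟩⟩
    · obtain ⟨q, rfl, h1⟩ := (H.lay w).surj b _ ((H.lay w).e0 b) le_rfl
      obtain ⟨p, rfl, h2⟩ := (H.lay w).surj a _ ((H.lay w).e0 _) (H.tri h)
      exact ⟨_, Or.inr ⟨k, p, q, h, h2.trans h1.symm, (H.top_iff q).1 h1, rfl⟩⟩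
  · rintro g' _ _ (⟨rfl, rfl⟩ | ⟨k, p, q, h1, h2, h3, rfl⟩)
      (⟨h, rfl⟩ | ⟨k', p', q', h4, h5, h6, rfl⟩)
    · rfl
    · generalize fg σ lab p' = a, fg σ lab q' = b at h4
      cases h4
    · subst h
      generalize fg σ lab p = a, fg σ lab q = b at h1
      cases h1
    · obtain ⟨rfl, h7, h8⟩ := h1.un h4
      have h9 : lv d lab q = lv d lab q' := by
        rw [(H.top_iff q).2 h3, (H.top_iff q').2 h6, h8]
      rw [(H.lay w).inj q q' h8 h9, (H.lay w).inj p p' h7 (h2.trans (h9.trans h5.symm))]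
  · rintro g' _ (⟨rfl, rfl⟩ | ⟨k, p, q, h1, h2, h3, rfl⟩)
    · refine ⟨nofun, Or.inr rfl, rfl, rfl, hu, if_pos rfl, ?_⟩
      rw [dl, C.closed, sub_self, mul_zero, neg_zero, LinearMap.zero_apply, map_zero, smul_zero]
      exact TL.of_eq (Submodule.zero_mem _) (sub_self _)
    · have h4 := H.sh_of_ent h1 h2 fun _ => h3
      have h5 : scl u g' = 1 := by
        generalize fg σ lab p = a, fg σ lab q = b at h1
        cases h1 <;> rfl
      have h6 : dl (dS lab) f (gg k p q) = dS lab (gg k p q) := by cases k <;> rfl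
      refine ⟨h1.notK, Or.inl (by rwa [AlS, ofM_gg]), h1.wt h2 _ _,
        (gg_isRight k p q).trans h1.par, by rw [h5, one_mul], ?_, ?_⟩
      · rw [h5, one_smul, H.rho_gg]
        exact (if_pos h2).trans h1.val
      · rw [h5, one_smul, h6, dS, ofM_gg, if_pos h4, lift_Phi (H.rho_sc j₀ u) lab hD,
          Phi_Tp _ (H.lay w) (Yk w _) (fun k => H.rho_YS j₀ u) H.Yk_tri h1.sv, h1.df, Lay.Tp,
          if_pos (show (H.lay w).l p = (H.lay w).l q from h2)]
        exact Phi_sub (fun k p q => words_le (fun _ _ => trivial) (Yk_par k p q))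
          (fun k p q => words_le (fun _ _ => trivial) (Yf_par k p q)) Yk_sub h1.sv _ _
  · rw [omS, LinearMap.neg_apply, LinearMap.sum_apply, map_neg, map_sum, neg_eq_zero]
    refine sum_eq_zero fun τ _ => ?_
    rw [LinearMap.smul_apply, map_smul, lift_YS (H.rho_sc j₀ u),
      H.rho_YS j₀ u (Or.inr (Or.inl rfl)), Lay.Tp, if_pos rfl]
    exact (congrArg _ (dif_neg fun h => lt_irrefl _ h.2)).trans (smul_zero _)
  · rintro ((_ | ⟨ε, a, b⟩) | r | r)
    · exact Submodule.zero_mem _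
    · exact Phi_par Yf_par (Or.inl ⟨ε, rfl⟩) a b
    · exact Phi_par Yf_par (Or.inr (Or.inl rfl)) _ _
    · exact Phi_par Yf_par (Or.inr (Or.inr rfl)) _ _

end Pool.Agent.MP_8be872_ag.H88.Fx
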