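import Pool.Agent.MP_8be872_ag.H56.GSpec

/-! Homogeneous submodules, vanishing in deep weights and dévissage. -/

namespace Pool.Agent.MP_8be872_ag.H88

open H38 H56

section Abs

variable {V : Type} {R : V × V → Prop} {x : V → G}
  {M M' : Type} [AddCommGroup M] [Module ℂ M] [AddCommGroup M'] [Module ℂ M']
  {W : G → Submodule ℂ M} {W' : G → Submodule ℂ M'} {ρ : V × V → M →ₗ[ℂ] M}
  {ρ' : V × V → M' →ₗ[ℂ] M'}

theorem exists_cp (h1 : ⨆ γ, W γ = ⊤) (h2 : iSupIndep W) :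
    ∃ π : G → M →ₗ[ℂ] M, (∀ γ m, π γ m ∈ W γ) ∧ (∀ γ, ∀ m ∈ W γ, π γ m = m) ∧
      (∀ γ δ, γ ≠ δ → ∀ m ∈ W δ, π γ m = 0) ∧ ∀ m, ∃ s : Finset G, ∑ γ ∈ s, π γ m = m := by
  classical
  let _ := (DirectSum.isInternal_submodule_of_iSupIndep_of_iSup_eq_top h2 h1).chooseDecomposition
  refine ⟨fun γ => (W γ).subtype ∘ₗ DirectSum.component ℂ G (fun γ => W γ) γ ∘ₗ
    (DirectSum.decomposeLinearEquiv W).toLinearMap, fun γ m => Subtype.prop _,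
    fun γ m hm => DirectSum.decompose_of_mem_same W hm,
    fun γ δ h m hm => DirectSum.decompose_of_mem_ne W hm h.symm,
    fun m => ⟨_, DirectSum.sum_support_decompose W m⟩⟩

theorem homog_comap (h1 : ⨆ γ, W γ = ⊤) (h2 : iSupIndep W) (h1' : ⨆ γ, W' γ = ⊤)
    (h2' : iSupIndep W') (ψ : M' →ₗ[ℂ] M) (κ : G) (hψ : ∀ γ, ∀ m ∈ W' γ, ψ m ∈ W (γ + κ))
    {Y : Submodule ℂ M} (hY : Y ≤ ⨆ γ, Y ⊓ W γ) : Y.comap ψ ≤ ⨆ γ, Y.comap ψ ⊓ W' γ := by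
  obtain ⟨π, -, p2, p3, -⟩ := exists_cp h1 h2
  obtain ⟨π', q1, q2, q3, q4⟩ := exists_cp h1' h2'
  have e : ∀ γ m, ψ (π' γ m) = π (γ + κ) (ψ m) := fun γ m => by
    refine Submodule.iSup_induction W' (motive := fun m => ψ (π' γ m) = π (γ + κ) (ψ m))
      (h1' ▸ Submodule.mem_top) (fun δ m hm => ?_) (by simp) fun a b ha hb => by
        simp only [map_add, ha, hb]
    by_cases hd : γ = δ
    · rw [hd, q2 _ _ hm, p2 _ _ (hψ _ _ hm)]
    · rw [q3 _ _ hd _ hm, map_zero, p3 _ _ (by simpa using hd) _ (hψ _ _ hm)]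
  have e2 : ∀ γ, ∀ y ∈ Y, π γ y ∈ Y := fun γ y hy => by
    refine Submodule.iSup_induction _ (motive := fun y => π γ y ∈ Y) (hY hy)
      (fun δ m hm => ?_) (by simp) fun a b ha hb => by rw [map_add]; exact Y.add_mem ha hb
    by_cases hd : γ = δ
    · rw [hd, p2 _ _ hm.2]; exact hm.1
    · rw [p3 _ _ hd _ hm.2]; exact Y.zero_mem
  intro m hm
  obtain ⟨s, hs⟩ := q4 m
  rw [← hs]
  exact Submodule.sum_mem _ fun γ _ => Submodule.mem_iSup_of_mem γ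
    ⟨by rw [SetLike.mem_coe, Submodule.mem_comap, e]; exact e2 _ _ hm, q1 _ _⟩

theorem homog_map (ψ : M' →ₗ[ℂ] M) (κ : G) (hψ : ∀ γ, ∀ m ∈ W' γ, ψ m ∈ W (γ + κ))
    {Y : Submodule ℂ M'} (hY : Y ≤ ⨆ γ, Y ⊓ W' γ) : Y.map ψ ≤ ⨆ γ, Y.map ψ ⊓ W γ := by
  refine (Submodule.map_mono hY).trans ?_
  rw [Submodule.map_iSup]
  refine iSup_le fun γ => le_iSup_of_le (γ + κ) ?_
  rintro _ ⟨m, hm, rfl⟩
  exact ⟨⟨m, hm.1, rfl⟩, hψ _ _ hm.2⟩

theorem homog_sup {Y Z : Submodule ℂ M} (hY : Y ≤ ⨆ γ, Y ⊓ W γ) (hZ : Z ≤ ⨆ γ, Z ⊓ W γ) :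
    Y ⊔ Z ≤ ⨆ γ, (Y ⊔ Z) ⊓ W γ :=
  sup_le (hY.trans (iSup_mono fun _ => inf_le_inf_right _ le_sup_left))
    (hZ.trans (iSup_mono fun _ => inf_le_inf_right _ le_sup_right))

theorem isSub_top [DecidableEq V] (h : IsRep R x W ρ) : IsSub R W ρ ⊤ :=
  ⟨by simp [h.top], fun _ _ _ _ => trivial⟩

variable [Fintype V] [DecidableEq V] [DecidablePred R]

variable (R x W ρ) in
/-- The cohomology vanishes in all sufficiently negative weights. -/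
def Deep (ξ : V → G →+ ℤ) (Z B : Submodule ℂ M) : Prop :=
  ∃ C : ℤ, ∀ γ, (∀ a, ξ a γ ≤ -C) → Acyc R x W ρ Z B γ

variable {ξ : V → G →+ ℤ}

theorem Deep.refl (Z : Submodule ℂ M) : Deep R x W ρ ξ Z Z :=
  ⟨0, fun _ _ _ => (inf_le_left.trans (inf_le_left.trans inf_le_left)).trans le_sup_right⟩

theorem acyc_of_equiv (ce : CEStmt) (hR : IsRoots R) (h : IsRep R x W ρ) (h' : IsRep R x W' ρ')
    {Z B : Submodule ℂ M} {Z' B' : Submodule ℂ M'} {γ γ' : G}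
    (e : ∀ p, Nonempty (Hu R x W' ρ' Z' B' γ' p ≃ₗ[ℂ] Hu R x W ρ Z B γ p)) :
    Acyc R x W' ρ' Z' B' γ' ↔ Acyc R x W ρ Z B γ := by
  rw [(ce V R x hR M W ρ h).2.2.1, (ce V R x hR M' W' ρ' h').2.2.1]
  exact forall_congr' fun p => (e p).some.toEquiv.subsingleton_congr

theorem Deep.trans (ce : CEStmt) (hR : IsRoots R) (h : IsRep R x W ρ) {Z Y B : Submodule ℂ M}
    (hZ : IsSub R W ρ Z) (hY : IsSub R W ρ Y) (hB : IsSub R W ρ B) (h1 : B ≤ Y) (h2 : Y ≤ Z)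
    (d1 : Deep R x W ρ ξ Z Y) (d2 : Deep R x W ρ ξ Y B) : Deep R x W ρ ξ Z B := by
  obtain ⟨C, hC⟩ := d1
  obtain ⟨C', hC'⟩ := d2
  refine ⟨max C C', fun γ hγ => ?_⟩
  exact (acyc_of_equiv ce hR h h (((ce V R x hR M W ρ h).2.2.2.1 Z Y B hZ hY hB h1 h2 γ).1
    (hC' γ fun a => by have := hγ a; omega))).2 (hC γ fun a => by have := hγ a; omega)

theorem Deep.shift {Z B : Submodule ℂ M} {Z' B' : Submodule ℂ M'} (κ : G)
    (e : ∀ γ, Acyc R x W' ρ' Z' B' γ → Acyc R x W ρ Z B (γ + κ))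
    (d : Deep R x W' ρ' ξ Z' B') : Deep R x W ρ ξ Z B := by
  obtain ⟨C, hC⟩ := d
  refine ⟨C + ∑ a, |ξ a κ|, fun γ hγ => ?_⟩
  rw [← sub_add_cancel γ κ]
  refine e _ (hC _ fun a => ?_)
  have h1 := hγ a
  have h2 := Finset.single_le_sum (f := fun a => |ξ a κ|) (fun _ _ => abs_nonneg _)
    (Finset.mem_univ a)
  have h3 := neg_abs_le (ξ a κ)
  rw [map_sub]
  omega

/-- Transport along an injective equivariant map. -/
theorem transfer (ce : CEStmt) (hR : IsRoots R) (h : IsRep R x W ρ) (h' : IsRep R x W' ρ')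
    (ψ : M' →ₗ[ℂ] M) (hi : Function.Injective ψ) (hψ : ∀ γ, ∀ m ∈ W' γ, ψ m ∈ W γ)
    (he : ∀ r m, ψ (ρ' r m) = ρ r (ψ m)) {Z B : Submodule ℂ M'} (hZ : IsSub R W' ρ' Z)
    (hB : IsSub R W' ρ' B) (hle : B ≤ Z) (γ : G) :
    Acyc R x W' ρ' Z B γ ↔ Acyc R x W ρ (Z.map ψ) (B.map ψ) γ := by
  have h0 : ∀ γ, ∀ m ∈ W' γ, ψ m ∈ W (γ + 0) := by simpa using hψ
  have hs : ∀ {Y}, IsSub R W' ρ' Y → IsSub R W ρ (Y.map ψ) := fun hY =>
    ⟨homog_map ψ 0 h0 hY.homog, by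
      rintro r hr _ ⟨m, hm, rfl⟩
      exact ⟨_, hY.stab r hr m hm, he r m⟩⟩
  have := (ce V R x hR M W ρ h).2.2.2.2.2.2 M' W' ρ' h' (Z.map ψ) (B.map ψ) Z B ψ 0 (hs hZ)
    (hs hB) (Submodule.map_mono hle) hZ hB hle h0 (fun r _ m _ => by simp [he]) le_rfl le_rfl
    le_sup_left (by rw [Submodule.comap_map_eq_of_injective hi]; exact inf_le_right) γ
  rw [add_zero] at this
  exact acyc_of_equiv ce hR h h' this

end Abs

section Dev

variable {V : Type} [DecidableEq V] {R : V × V → Prop} {x : V → G} {P M : Type} [CommRing P]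
  [Algebra ℂ P]
  [AddCommGroup M] [Module ℂ M] [Module P M] [IsScalarTower ℂ P M]
  {U : G → Submodule ℂ P} {δ : V × V → Derivation ℂ P P}
  {W : G → Submodule ℂ M} {ρ : V × V → M →ₗ[ℂ] M}

variable (R x U δ W ρ) in
/-- A graded equivariant module. -/
structure IsMod : Prop where
  rep0 : IsRep R x U fun r => (δ r).toLinearMap
  rep : IsRep R x W ρ
  leib : ∀ r a m, ρ r (a • m) = δ r a • m + a • ρ r m
  grad : ∀ γ γ', ∀ a ∈ U γ, ∀ m ∈ W γ', a • m ∈ W (γ + γ')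

theorem IsMod.colon (h : IsMod R x U δ W ρ) {Y : Submodule P M}
    (hY : IsSub R W ρ (Y.restrictScalars ℂ)) {γ : G} {z : M} (hz : z ∈ W γ)
    (hρ : ∀ r, R r → ρ r z ∈ Y) :
    IsSub R U (fun r => (δ r).toLinearMap)
      ((Y.comap (LinearMap.toSpanSingleton P M z)).restrictScalars ℂ) := by
  refine ⟨homog_comap h.rep.top h.rep.indep h.rep0.top h.rep0.indep
    ((LinearMap.toSpanSingleton P M z).restrictScalars ℂ) γ
    (fun γ' a ha => h.grad _ _ a ha z hz) hY.homog, fun r hr a ha => ?_⟩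
  change δ r a • z ∈ Y
  rw [← add_sub_cancel_right (δ r a • z) (a • ρ r z), ← h.leib]
  exact Y.sub_mem (hY.stab r hr _ ha) (Y.smul_mem _ (hρ r hr))

theorem IsMod.ext (h : IsMod R x U δ W ρ) {Y : Submodule P M}
    (hY : IsSub R W ρ (Y.restrictScalars ℂ)) {γ : G} {z : M} (hz : z ∈ W γ)
    (hρ : ∀ r, R r → ρ r z ∈ Y) :
    IsSub R W ρ ((Y ⊔ Submodule.span P {z}).restrictScalars ℂ) := by
  constructor
  · rw [Submodule.restrictScalars_sup, ← LinearMap.range_toSpanSingleton,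
      LinearMap.range_eq_map, Submodule.restrictScalars_map]
    exact homog_sup hY.homog (homog_map _ γ (fun γ' a ha => h.grad _ _ a ha z hz)
      (isSub_top h.rep0).homog)
  · intro r hr m hm
    obtain ⟨y, hy, _, hb, rfl⟩ := Submodule.mem_sup.1 hm
    obtain ⟨a, rfl⟩ := Submodule.mem_span_singleton.1 hb
    rw [map_add, h.leib]
    exact Submodule.add_mem _ (Submodule.mem_sup_left (hY.stab r hr _ hy))
      (Submodule.add_mem _ (Submodule.mem_sup_right (Submodule.mem_span_singleton.2 ⟨_, rfl⟩))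
        (Submodule.mem_sup_left (Y.smul_mem _ (hρ r hr))))

variable [Fintype V] [DecidablePred R] {ξ : V → G →+ ℤ}

theorem IsMod.dev [IsNoetherian P M] (ce : CEStmt) (hR : IsRoots R) (h : IsMod R x U δ W ρ)
    (σ ht : G →+ ℤ) (hσ : ∀ a, σ (x a) = 0) (hht : ∀ r, R r → ht (x r.2) < ht (x r.1))
    (hf : ∀ l, {γ | σ γ = l ∧ W γ ≠ ⊥}.Finite) {Z B : Submodule P M} (hle : B ≤ Z)
    (hZ : IsSub R W ρ (Z.restrictScalars ℂ)) (hB : IsSub R W ρ (B.restrictScalars ℂ))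
    (hJ : ∀ J : Ideal P, IsSub R U (fun r => (δ r).toLinearMap) (J.restrictScalars ℂ) →
      (∀ a, (∀ z ∈ Z, a • z ∈ B) → a ∈ J) →
      Deep R x U (fun r => (δ r).toLinearMap) ξ ⊤ (J.restrictScalars ℂ)) :
    Deep R x W ρ ξ (Z.restrictScalars ℂ) (B.restrictScalars ℂ) := by
  obtain ⟨Y, ⟨h1, h2, h3, h4⟩, hmax⟩ := set_has_maximal_iff_noetherian.2 ‹IsNoetherian P M›
    {Y | B ≤ Y ∧ Y ≤ Z ∧ IsSub R W ρ (Y.restrictScalars ℂ) ∧
      Deep R x W ρ ξ (Y.restrictScalars ℂ) (B.restrictScalars ℂ)} ⟨B, le_rfl, hle, hB, .refl _⟩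
  by_cases hZY : Z ≤ Y
  · rwa [← le_antisymm h2 hZY]
  obtain ⟨γ₀, h0⟩ : ∃ γ, ¬ Z.restrictScalars ℂ ⊓ W γ ≤ Y.restrictScalars ℂ := by
    by_contra hc
    push Not at hc
    exact hZY (hZ.homog.trans (iSup_le hc))
  obtain ⟨γ, ⟨g1, g2⟩, g3⟩ := Set.exists_max_image
    {γ | σ γ = σ γ₀ ∧ ¬ Z.restrictScalars ℂ ⊓ W γ ≤ Y.restrictScalars ℂ} ht
    ((hf (σ γ₀)).subset fun γ hγ => ⟨hγ.1, fun e => hγ.2 (by simp [e])⟩) ⟨γ₀, rfl, h0⟩
  obtain ⟨z, ⟨z1, z2⟩, z3⟩ := SetLike.not_le_iff_exists.1 g2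
  have hρ : ∀ r, R r → ρ r z ∈ Y := fun r hr => by
    by_contra hc
    have := g3 (γ + (x r.1 - x r.2)) ⟨by simp [hσ, g1], fun hl =>
      hc (hl ⟨hZ.stab r hr z z1, h.rep.wt r hr γ z z2⟩)⟩
    have := hht r hr
    simp only [map_add, map_sub] at *
    omega
  have hY' := h.ext h3 z2 hρ
  have hJ' := h.colon h3 z2 hρ
  refine absurd (left_lt_sup.2 (by rwa [Submodule.span_singleton_le_iff_mem])) (hmax _
    ⟨h1.trans le_sup_left, sup_le h2 ((Submodule.span_singleton_le_iff_mem _ _).2 z1), hY', ?_⟩)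
  refine Deep.trans ce hR h.rep hY' h3 hB h1 (le_sup_left (a := Y)) ?_ h4
  refine (hJ _ hJ' fun a ha => h1 (ha z z1)).shift γ fun γ' => (acyc_of_equiv ce hR h.rep h.rep0
    ((ce V R x hR M W ρ h.rep).2.2.2.2.2.2 P U _ h.rep0 _ _ ⊤ _
      ((LinearMap.toSpanSingleton P M z).restrictScalars ℂ) γ hY' h3 (le_sup_left (a := Y))
      (isSub_top h.rep0) hJ' le_top (fun γ' a ha => h.grad _ _ a ha z z2) (fun r hr a _ => ?_)
      ?_ ?_ ?_ inf_le_right γ')).1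
  · change δ r a • z - ρ r (a • z) ∈ Y
    rw [h.leib, sub_add_cancel_left]
    exact Y.neg_mem (Y.smul_mem _ (hρ r hr))
  · rintro _ ⟨a, -, rfl⟩
    exact Submodule.mem_sup_right (Submodule.mem_span_singleton.2 ⟨a, rfl⟩)
  · rintro _ ⟨a, ha, rfl⟩
    exact ha
  · intro m hm
    obtain ⟨y, hy, _, hb, rfl⟩ := Submodule.mem_sup.1 hm
    obtain ⟨a, rfl⟩ := Submodule.mem_span_singleton.1 hb
    exact Submodule.add_mem _ (Submodule.mem_sup_right hy)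
      (Submodule.mem_sup_left ⟨a, trivial, rfl⟩)

end Dev

end Pool.Agent.MP_8be872_ag.H88
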