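import Pool.Agent.MP_8be872_ag.H88.FxGen
import Pool.Agent.MP_8be872_ag.H63.Tool
import Pool.Agent.MP_8be872_ag.H63.SpecA

/-! An abstract criterion for a one-chart complex to be a free dg algebra with a parity shift. -/

namespace Pool.Agent.MP_8be872_ag.H88.Fx

open Finset H38 H56 H63 MvPolynomial

variable {E O J Γ E' O' : Type} [Fintype E] [Fintype O] [Fintype J] [DecidableEq E] [DecidableEq O]
  [DecidableEq J] [AddCommGroup Γ] [Fintype E'] [Fintype O'] [DecidableEq E'] [DecidableEq O']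

/-- The data of the comparison. -/
structure IsoD (Al : Gn E O J → Prop) (c : Gn E O J → Γ) (δ : Gn E O J → Op E O J) (ω : Op E O J)
    (f : J → MvPolynomial (E ⊕ J) ℂ) (j₀ : J) (ν : Matrix (Gn E O J) (Gn E O J) ℂ)
    (K : Gn E O J → Prop) (c' : E' ⊕ O' → Γ) (δ' : E' ⊕ O' → Module.End ℂ (Sp E' O'))
    (K' : E' ⊕ O' → Prop) (r' : MvPolynomial E' ℂ) (ρ : Gn E O J → Module.End ℂ (Sp E' O'))
    (Θ : E' ⊕ O' → Gn E O J → Prop) (sc : E' ⊕ O' → ℂ) : Prop where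
  good : Good Al c δ ω f
  wt : ∀ g, ρ g ∈ words fun μ => ws c' μ = c g ∧ od μ = g.isRight
  rE : ∀ j, ρ (ev j) = 0
  rK : ∀ g, K g → g ≠ ev j₀ ∧ ρ g = 0
  nu : ∀ g, ∃ a, (lin (ν g) : Op E O J) ∈ (words fun μ => μ (ev j₀) = 0 ∧ od μ = a) ∧
    lift ρ (lin (ν g) one) = 0
  ex : ∀ g', ¬ K' g' → ∃ g, Θ g' g
  un : ∀ g' g g₁, Θ g' g → Θ g' g₁ → g = g₁
  th : ∀ g' g, Θ g' g → ¬ K' g' ∧ (Al g ∨ g = tv j₀) ∧ c g = c' g' ∧ g.isRight = g'.isRight ∧
    sc g' * sc g' = 1 ∧ ρ g = sc g' • gn g' ∧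
    sc g' • lift ρ (dl δ f g one) - δ' g' ∈ words (has K')
  cl : ∀ g, Al g ∨ g = tv j₀ → K g ∨ gn g ∈ Submodule.span ℂ
    {m : Op E O J | (∃ g' g₁, Θ g' g₁ ∧ m = gn g₁) ∨ ∃ g₀, m = lin (ν g₀)}
  rr : lo ρ (pol (f j₀ * X (.inr j₀) - 1)) - pol r' ∈ mono (has K')
  om : lift ρ (ω one) = 0
  par : ∀ g', δ' g' ∈ words fun μ => od μ = xor g'.isRight true

open Classical in
/-- The substitution in the other direction. -/
noncomputable def bk (Θ : E' ⊕ O' → Gn E O J → Prop) (sc : E' ⊕ O' → ℂ) (g' : E' ⊕ O') :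
    Op E O J := if h : ∃ g, Θ g' g then sc g' • gn h.choose else 0

variable {Al : Gn E O J → Prop} {c : Gn E O J → Γ} {δ : Gn E O J → Op E O J} {ω : Op E O J}
  {f : J → MvPolynomial (E ⊕ J) ℂ} {j₀ : J} {ν : Matrix (Gn E O J) (Gn E O J) ℂ}
  {K : Gn E O J → Prop} {c' : E' ⊕ O' → Γ} {δ' : E' ⊕ O' → Module.End ℂ (Sp E' O')}
  {K' : E' ⊕ O' → Prop} {r' : MvPolynomial E' ℂ} {ρ : Gn E O J → Module.End ℂ (Sp E' O')}
  {Θ : E' ⊕ O' → Gn E O J → Prop} {sc : E' ⊕ O' → ℂ}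

theorem pol_even (F : MvPolynomial E ℂ) : (pol F : Sp E O) ∈ mono fun μ => od μ = false := by
  rw [← mul_one_eq]
  exact words_one_mem (mul_mem_even F)

theorem dr_gn_ev (j : J) (z : Sp (E ⊕ J) (O ⊕ J)) :
    dr (ev j) (gn (ev j) z) = z - gn (ev j) (dr (ev j) z) := by
  have h := LinearMap.congr_fun (dr_mul_gn (E := E ⊕ J) (O := O ⊕ J) (ev j) (ev j)) z
  rw [if_pos rfl] at h
  refine h.trans ?_
  change sg true • gn (ev j) (dr (ev j) z) + z = _
  rw [sg_true, neg_one_smul, neg_add_eq_sub]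

variable (H : IsoD Al c δ ω f j₀ ν K c' δ' K' r' ρ Θ sc)
include H

theorem IsoD.par₁ (g : Gn E O J) : ρ g ∈ words fun μ => od μ = g.isRight :=
  words_le (fun _ a => a.2) (H.wt g)

theorem IsoD.sc₁ : Sc ρ := sc_of H.par₁

theorem IsoD.bk_th {g' : E' ⊕ O'} {g : Gn E O J} (h : Θ g' g) : bk Θ sc g' = sc g' • gn g := by
  have h' : ∃ g, Θ g' g := ⟨g, h⟩
  rw [bk, dif_pos h', H.un g' _ g h'.choose_spec h]

theorem IsoD.bk_K (g' : E' ⊕ O') (h : K' g') : bk Θ sc g' = 0 :=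
  dif_neg fun ⟨g, hg⟩ => (H.th g' g hg).1 h

theorem IsoD.bk_wt (g' : E' ⊕ O') : bk Θ sc g' ∈ words fun μ =>
    sup (fun g => Al g ∨ g = tv j₀) μ ∧ ws c μ = c' g' ∧ od μ = g'.isRight := by
  by_cases h : K' g'
  · rw [H.bk_K g' h]
    exact Submodule.zero_mem _
  · obtain ⟨g, hg⟩ := H.ex g' h
    obtain ⟨-, h1, h2, h3, -⟩ := H.th g' g hg
    rw [H.bk_th hg]
    exact Submodule.smul_mem _ _
      (gn_mem_words ⟨sup_single.2 h1, (ws_single _ _).trans h2, (od_single _).trans h3⟩)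

theorem IsoD.par₂ (g' : E' ⊕ O') : bk Θ sc g' ∈ words fun μ => od μ = g'.isRight :=
  words_le (fun _ a => a.2.2) (H.bk_wt g')

theorem IsoD.sc₂ : Sc (bk Θ sc) := sc_of H.par₂

theorem IsoD.stab_lin (g : Gn E O J) (x : Sp (E ⊕ J) (O ⊕ J)) (hx : x ∈ linI ν) :
    gn g x ∈ linI ν := by
  refine (iSup_le fun g₀ => ?_ : linI ν ≤ (linI ν).comap (gn g)) hx
  rintro _ ⟨y, rfl⟩
  obtain ⟨a, h1, -⟩ := H.nu g₀
  have h := LinearMap.congr_fun (words_comm (gn_od g) (words_le (fun _ b => b.2) h1)) y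
  change (gn g * lin (ν g₀)) y ∈ linI ν
  rw [h]
  exact Submodule.smul_mem _ _ (Submodule.mem_iSup_of_mem g₀ ⟨gn g y, rfl⟩)

theorem IsoD.stab₀ (g : Gn E O J) (x : Sp (E ⊕ J) (O ⊕ J)) (hx : x ∈ linI ν ⊔ mono (has K)) :
    gn g x ∈ linI ν ⊔ mono (has K) := by
  obtain ⟨y, hy, z, hz, rfl⟩ := Submodule.mem_sup.1 hx
  rw [map_add]
  exact Submodule.add_mem_sup (H.stab_lin g y hy) (has_stab K g z hz)

theorem IsoD.fwd_bk (y : Sp E' O') : lo ρ (lo (bk Θ sc) y) - y ∈ mono (has K') := by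
  refine intertwine (A := fun _ => True) (lo ρ ∘ₗ lo (bk Θ sc)) LinearMap.id _ gn
    (fun g _ => has_stab K' g) ?_ (fun g' _ x _ => ?_) y (mem_mono.2 fun _ _ _ _ _ => trivial)
  · rw [LinearMap.comp_apply, lo_one, lo_one, LinearMap.id_apply, sub_self]
    exact Submodule.zero_mem _
  · simp only [LinearMap.comp_apply, LinearMap.id_apply, lo_gn H.sc₂, map_sub]
    rw [sub_sub_sub_cancel_right]
    by_cases h : K' g'
    · rw [H.bk_K g' h, LinearMap.zero_apply, map_zero, zero_sub]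
      exact Submodule.neg_mem _ (has_apply (gn_mem_words (has_single.2 h)) _)
    · obtain ⟨g, hg⟩ := H.ex g' h
      obtain ⟨-, -, -, -, h1, h2, -⟩ := H.th g' g hg
      rw [H.bk_th hg, LinearMap.smul_apply, map_smul, lo_gn H.sc₁, h2, LinearMap.smul_apply,
        smul_smul, h1, one_smul, sub_self]
      exact Submodule.zero_mem _

theorem IsoD.bk_gen {g : Gn E O J} (hg : Al g ∨ g = tv j₀) :
    lo (bk Θ sc) (lo ρ (gn g one)) - gn g one ∈ linI ν ⊔ mono (has K) := by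
  rcases H.cl g hg with h | h
  · rw [lo_gn H.sc₁, (H.rK g h).2, LinearMap.zero_apply, map_zero, zero_sub]
    exact Submodule.neg_mem _
      (Submodule.mem_sup_right (has_apply (gn_mem_words (has_single.2 h)) _))
  · refine (Submodule.span_le.2 ?_ : _ ≤ (linI ν ⊔ mono (has K)).comap
      ((lo (bk Θ sc) ∘ₗ lo ρ - LinearMap.id) ∘ₗ LinearMap.applyₗ one)) h
    rintro _ (⟨g', g₁, h1, rfl⟩ | ⟨g₀, rfl⟩)
    · change lo (bk Θ sc) (lo ρ (gn g₁ one)) - gn g₁ one ∈ linI ν ⊔ mono (has K)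
      obtain ⟨-, -, -, -, h2, h3, -⟩ := H.th g' g₁ h1
      rw [lo_gn H.sc₁, lo_one, h3, LinearMap.smul_apply, map_smul, lo_gn H.sc₂, lo_one,
        H.bk_th h1, LinearMap.smul_apply, smul_smul, h2, one_smul, sub_self]
      exact Submodule.zero_mem _
    · change lo (bk Θ sc) (lift ρ (lin (ν g₀) one) one) - lin (ν g₀) one ∈ linI ν ⊔ mono (has K)
      obtain ⟨a, -, h2⟩ := H.nu g₀
      rw [h2, LinearMap.zero_apply, map_zero, zero_sub]
      exact Submodule.neg_mem _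
        (Submodule.mem_sup_left (Submodule.mem_iSup_of_mem g₀ ⟨one, rfl⟩))

theorem IsoD.bk_fwd : ∀ x ∈ mono (sup fun g => Al g ∨ g = tv j₀),
    lo (bk Θ sc) (lo ρ x) - x ∈ linI ν ⊔ mono (has K) := by
  refine intertwine (lo (bk Θ sc) ∘ₗ lo ρ) LinearMap.id _ gn (fun g _ => H.stab₀ g) ?_
    fun g hg x _ => ?_
  · rw [LinearMap.comp_apply, lo_one, lo_one, LinearMap.id_apply, sub_self]
    exact Submodule.zero_mem _
  · simp only [LinearMap.comp_apply, LinearMap.id_apply, lo_gn H.sc₁, map_sub]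
    rw [sub_sub_sub_cancel_right, lo_words H.sc₂ (H.par₁ g)]
    refine par_mem H.stab₀ (Submodule.sub_mem _
      (lift_par H.par₂ (words_one_mem (H.par₁ g))) (gn_od g)) ?_ _
    have h := H.bk_gen hg
    rw [lo_gn H.sc₁, lo_one] at h
    exact h

theorem IsoD.psi_ev (z : Sp (E ⊕ J) (O ⊕ J)) : lo ρ (dr (ev j₀) (gn (ev j₀) z)) = lo ρ z := by
  rw [dr_gn_ev, map_sub, lo_gn H.sc₁, H.rE, LinearMap.zero_apply, sub_zero]

theorem IsoD.psi_B : linI ν ⊔ (rel f ⊔ mono (has K)) ≤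
    (mono (has K') ⊔ LinearMap.range (mul r')).comap (lo ρ ∘ₗ dr (ev j₀)) := by
  refine sup_le (iSup_le fun g₀ => ?_) (sup_le (rel_eq.trans_le (iSup_le fun j => ?_)) ?_)
  · rintro _ ⟨y, rfl⟩
    obtain ⟨a, h1, h2⟩ := H.nu g₀
    have h3 := words_false (dr_br (P' := fun _ => False) (ev j₀) h1 fun μ h => by simp at h)
      fun _ => id
    rw [Submodule.mem_comap, LinearMap.comp_apply, ← Module.End.mul_apply (dr _),
      sub_eq_zero.1 h3, LinearMap.smul_apply, map_smul, Module.End.mul_apply,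
      lo_words H.sc₁ h1, h2, LinearMap.zero_apply, smul_zero]
    exact Submodule.zero_mem _
  · rintro _ ⟨y, rfl⟩
    rw [Submodule.mem_comap, LinearMap.comp_apply, Module.End.mul_apply,
      ← Module.End.mul_apply (dr _), dr_inr_mul, Module.End.mul_apply, lo_words H.sc₁ (mul_mem_even _)]
    by_cases hj : j = j₀
    · subst hj
      have h1 := par_mem (has_stab K') (Submodule.sub_mem _
        (lift_par H.par₁ (pol_even (f j * X (.inr j) - 1))) (mul_mem_even r'))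
        (by rw [LinearMap.sub_apply, mul_one_eq]; exact H.rr)
        (lo ρ (dr (ev j) (gn (ev j) y)))
      rw [LinearMap.sub_apply] at h1
      rw [mul_one_eq, ← sub_add_cancel (lift ρ _ _) (mul r' _)]
      exact Submodule.add_mem_sup h1 ⟨_, rfl⟩
    · have h := LinearMap.congr_fun (dr_mul_gn (E := E ⊕ J) (O := O ⊕ J) (ev j₀) (ev j)) y
      rw [if_neg fun h0 => hj (Sum.inr.inj (Sum.inr.inj h0)).symm, add_zero] at h
      rw [← Module.End.mul_apply (dr _), h, LinearMap.smul_apply, map_smul, Module.End.mul_apply,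
        lo_gn H.sc₁, H.rE, LinearMap.zero_apply, smul_zero, map_zero]
      exact Submodule.zero_mem _
  · intro x hx
    change lift ρ (dr (ev j₀) x) one ∈ mono (has K') ⊔ LinearMap.range (mul r')
    rw [lift_has H.sc₁ (fun g h => (H.rK g h).2) (dr_mem _ hx fun μ h =>
      (has_add.1 h).resolve_right fun h' => (H.rK _ (has_single.1 h')).1 rfl), LinearMap.zero_apply]
    exact Submodule.zero_mem _

theorem IsoD.lo_K {y : Sp E' O'} (hy : y ∈ mono (has K')) : lo (bk Θ sc) y = 0 := by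
  change lift (bk Θ sc) y one = 0
  rw [lift_has H.sc₂ H.bk_K hy, LinearMap.zero_apply]

omit H [DecidableEq E] in
theorem le_B : linI ν ⊔ mono (has K) ≤ linI ν ⊔ (rel f ⊔ mono (has K)) :=
  sup_le_sup_left le_sup_right _

theorem IsoD.s_B : mono (has K') ⊔ LinearMap.range (mul r') ≤
    (linI ν ⊔ (rel f ⊔ mono (has K))).comap (gn (ev j₀) ∘ₗ lo (bk Θ sc)) := by
  refine sup_le (fun y hy => ?_) ?_
  · rw [Submodule.mem_comap, LinearMap.comp_apply, H.lo_K hy, map_zero]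
    exact Submodule.zero_mem _
  · rintro _ ⟨z, rfl⟩
    rw [Submodule.mem_comap, LinearMap.comp_apply]
    have h0 : (pol (f j₀ * X (.inr j₀) - 1) : Sp (E ⊕ J) (O ⊕ J)) ∈
        mono (sup fun g => Al g ∨ g = tv j₀) := by
      rw [← mul_one_eq, ← show mulA _ = mul _ from rfl, map_sub, map_one, map_mul]
      refine words_one_mem (Submodule.sub_mem _ (mul_mem_words (H.good.f_mem j₀)
        (gn_mem_words (g := tv j₀) (sup_single.2 (Or.inr rfl))) fun a b ha hb =>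
          sup_add.2 ⟨fun g hg => Or.inl (ha.1.1 g hg), hb⟩) (one_mem_words fun _ h => absurd rfl h))
    have h1 := H.bk_fwd _ h0
    have h2 := H.lo_K H.rr
    rw [map_sub, sub_eq_zero] at h2
    rw [h2] at h1
    have h3 := par_mem H.stab₀ (Submodule.sub_mem _ (lift_par H.par₂ (pol_even r'))
      (mul_mem_even (f j₀ * X (.inr j₀) - 1)))
      (by rw [LinearMap.sub_apply, mul_one_eq]; exact h1) (lo (bk Θ sc) z)
    rw [LinearMap.sub_apply] at h3
    rw [lo_words H.sc₂ (mul_mem_even _), mul_one_eq,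
      ← sub_add_cancel (lift (bk Θ sc) _ _) (mul (f j₀ * X (.inr j₀) - 1) _), map_add]
    refine Submodule.add_mem _ (le_B (H.stab₀ _ _ h3))
      (Submodule.mem_sup_right (Submodule.mem_sup_left ?_))
    rw [← Module.End.mul_apply, ← mul_comm_words _ (gn_od _)]
    exact rel_eq.ge (Submodule.mem_iSup_of_mem j₀ ⟨_, rfl⟩)

theorem IsoD.comm₀ : ∀ y ∈ mono (sup fun g => ¬ K' g),
    lo ρ (Dloc δ ω f ∅ (lo (bk Θ sc) y)) - vf δ' y ∈ mono (has K') := by
  refine intertwine (lo ρ ∘ₗ Dloc δ ω f ∅ ∘ₗ lo (bk Θ sc)) (vf δ') _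
    (fun g => sg g.isRight • gn g)
    (fun g _ y hy => Submodule.smul_mem _ _ (has_stab K' g y hy)) ?_ fun g' hg x _ => ?_
  · simp only [LinearMap.comp_apply, lo_one, H.good.Dloc_eq, sum_empty, add_zero,
      LinearMap.add_apply, vf_one, zero_add, sub_zero]
    change lift ρ (ω one) one ∈ _
    rw [H.om]
    exact Submodule.zero_mem _
  · obtain ⟨g, hg⟩ := H.ex g' hg
    obtain ⟨-, -, -, h1, h2, h3, h4⟩ := H.th g' g hg
    have e1 := LinearMap.congr_fun (H.good.Dloc_gn ∅ g) (lo (bk Θ sc) x)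
    have e2 := LinearMap.congr_fun (vf_gn H.par g') x
    simp only [LinearMap.sub_apply, LinearMap.smul_apply, Module.End.mul_apply, Bool.true_and,
      sub_eq_iff_eq_add] at e1 e2
    have h5 := Submodule.add_mem _ (has_apply h4 (lo ρ (lo (bk Θ sc) x)))
      (words_stab (has_stab K') (H.par g') (H.fwd_bk x))
    convert h5 using 1
    simp only [LinearMap.comp_apply, lo_gn H.sc₂, H.bk_th hg, LinearMap.smul_apply, map_smul, e1,
      e2, map_add, lo_gn H.sc₁, h3, lo_words H.sc₁ (H.good.dl_odd g), h1, map_sub,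
      LinearMap.sub_apply, smul_add, smul_smul]
    rw [mul_right_comm, h2, one_mul]
    abel

variable {γ : Γ} {p : Bool}

theorem IsoD.dr_Z {x : Sp (E ⊕ J) (O ⊕ J)} (hx : x ∈ ZZ Al c {j₀} ∅ γ p) :
    dr (ev j₀) x ∈ mono fun μ => sup (fun g => Al g ∨ g = tv j₀) μ ∧ ws c μ = γ ∧
      od μ = xor p true := by
  refine dr_mem _ (mono_le_odd (fun μ h h' => And.intro (h (.inr j₀)) h') hx) ?_
  rintro μ ⟨h0, ⟨h1, -⟩, h2, h3⟩
  rw [ws_add, ws_single, H.good.wtE, add_zero] at h2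
  rw [od_add, od_single] at h3
  refine ⟨fun g hg => ?_, h2, by rw [← h3]; simp⟩
  have h4 : ∀ j, (μ + Pi.single (ev j₀) 1 : Gn E O J → ℕ) (ev j) ≠ 0 → j = j₀ := by
    intro j hj
    rcases h1 _ hj with h | ⟨_, h, -⟩ | ⟨j', h, h'⟩
    · exact absurd h (H.good.alE j)
    · cases h
    · cases h'
      simpa using h
  rcases h1 g (by simp [hg]) with h | ⟨j, h, h'⟩ | ⟨j, h, rfl⟩
  · exact Or.inl h
  · exact Or.inr (h4 j h' ▸ h)
  · obtain rfl : j = j₀ := by simpa using h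
    change μ (ev j) + (Pi.single (ev j) 1 : Gn E O J → ℕ) (ev j) ≤ 1 at h0
    rw [Pi.single_eq_same] at h0
    exact absurd (by omega) hg

theorem IsoD.psi_Z {x : Sp (E ⊕ J) (O ⊕ J)} (hx : x ∈ ZZ Al c {j₀} ∅ γ p) :
    lo ρ (dr (ev j₀) x) ∈ mono fun μ => ws c' μ = γ ∧ od μ = xor p true :=
  words_one_mem (words_le (fun _ a => a.2) (lift_mem (A' := fun _ => True)
    (fun g => words_le (fun _ a => ⟨fun _ _ => trivial, a⟩) (H.wt g))
    (mono_le (fun _ a => a.2) (H.dr_Z hx))))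

theorem IsoD.s_Z {y : Sp E' O'} (hy : y ∈ mono fun μ => ws c' μ = γ ∧ od μ = xor p true) :
    gn (ev j₀) (lo (bk Θ sc) y) ∈ ZZ Al c {j₀} ∅ γ p := by
  refine gn_mem _ (words_one_mem (lift_mem H.bk_wt hy)) ?_
  rintro μ ⟨h1, h2, h3⟩
  have h4 : (μ + Pi.single (ev j₀) 1 : Gn E O J → ℕ) (ev j₀) ≠ 0 := by simp
  refine ⟨⟨fun g hg => ?_, fun j hj => mem_singleton.1 hj ▸ h4, j₀, h4⟩, ?_, ?_⟩
  · by_cases h : g = ev j₀
    · exact Or.inr (Or.inr ⟨j₀, by simp, h⟩)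
    · rw [Pi.add_apply, Pi.single_eq_of_ne h, add_zero] at hg
      exact (h1 g hg).imp_right fun h' => Or.inl ⟨j₀, h', h4⟩
  · rw [ws_add, ws_single, H.good.wtE, add_zero, h2]
  · rw [od_add, od_single, h3]
    simp

theorem IsoD.inj {x : Sp (E ⊕ J) (O ⊕ J)} (hx : x ∈ ZZ Al c {j₀} ∅ γ p)
    (h : lo ρ (dr (ev j₀) x) ∈ mono (has K') ⊔ LinearMap.range (mul r')) :
    x ∈ linI ν ⊔ (rel f ⊔ mono (has K)) := by
  have h1 := H.stab₀ (ev j₀) _ (H.bk_fwd _ (mono_le (fun _ a => a.1) (H.dr_Z hx)))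
  rw [map_sub, gn_dr (mono_le (fun _ a => a.1.2.1 j₀ (mem_singleton_self _)) hx)] at h1
  exact TL.of_sub' (le_B h1) (H.s_B h)

theorem IsoD.chi (cx : IsCx (Dloc δ ω f ∅) (ZZ Al c {j₀} ∅ γ) (linI ν ⊔ (rel f ⊔ mono (has K))))
    (cx' : IsCx (vf δ') (fun p => mono fun μ => ws c' μ = γ ∧ od μ = p)
      (mono (has K') ⊔ LinearMap.range (mul r'))) {n : ℤ}
    (hn : HasChi (vf δ') (fun p => mono fun μ => ws c' μ = γ ∧ od μ = p)
      (mono (has K') ⊔ LinearMap.range (mul r')) n) :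
    HasChi (Dloc δ ω f ∅) (ZZ Al c {j₀} ∅ γ) (linI ν ⊔ (rel f ⊔ mono (has K))) (-n) := by
  have hs : ∀ y, y - lo ρ (dr (ev j₀) (gn (ev j₀) (lo (bk Θ sc) y))) ∈
      mono (has K') ⊔ LinearMap.range (mul r') := fun y => by
    rw [H.psi_ev, ← neg_sub]
    exact Submodule.neg_mem _ (Submodule.mem_sup_left (H.fwd_bk y))
  have hc : ChMap (lo ρ ∘ₗ dr (ev j₀)) true (Dloc δ ω f ∅) (ZZ Al c {j₀} ∅ γ)
      (linI ν ⊔ (rel f ⊔ mono (has K))) (vf δ') (fun p => mono fun μ => ws c' μ = γ ∧ od μ = p)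
      (mono (has K') ⊔ LinearMap.range (mul r')) := by
    refine ⟨cx, cx', fun p x hx => ⟨_, H.psi_Z hx, ?_⟩, fun p x _ hx => H.psi_B hx,
      fun p => ⟨-1, by simp, fun x hx y hy hxy => ?_⟩⟩
    · rw [LinearMap.comp_apply, sub_self]
      exact Submodule.zero_mem _
    have h1 := proj_mem_of (P := sup fun g => ¬ K' g) hy
    have h2 : y - proj (sup fun g => ¬ K' g) y ∈ mono (has K') :=
      mono_le (fun μ h => of_not_not fun h' => h fun g hg hK => h' ⟨g, hK, hg⟩) (sub_proj_mem y)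
    have h3 := H.comm₀ _ (proj_mem y)
    generalize proj (sup fun g => ¬ K' g) y = y₀ at h1 h2 h3
    have h4 := Submodule.sub_mem _ hx (H.s_Z h1)
    have h5 := H.psi_B (cx.mapB p _ h4 (H.inj h4 (by
      convert Submodule.add_mem _ (Submodule.add_mem _ hxy (Submodule.mem_sup_left h2)) (hs y₀)
        using 1
      simp only [map_sub, LinearMap.comp_apply]
      abel)))
    have h6 := cx'.mapB _ _ (Submodule.sub_mem _ hy h1) (Submodule.mem_sup_left h2)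
    have e1 := LinearMap.congr_fun (H.good.Dloc_gn ∅ (ev j₀)) (lo (bk Θ sc) y₀)
    rw [show dl δ f (ev j₀) = 0 from H.good.dz _ (H.good.alE j₀)] at e1
    simp only [LinearMap.sub_apply, LinearMap.smul_apply, Module.End.mul_apply, Sum.isRight_inr,
      sg_true, LinearMap.zero_apply, sub_eq_zero] at e1
    rw [Submodule.mem_comap] at h5
    refine TL.of_eq (Submodule.sub_mem _ (Submodule.add_mem _ h5 h6)
      (Submodule.mem_sup_left h3)) ?_
    simp only [map_sub, LinearMap.comp_apply, e1, map_neg, H.psi_ev, neg_smul, one_smul]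
    abel
  refine ((hc.iso (fun p y hy => ⟨_, H.s_Z hy, ?_⟩) fun p x hx h => ?_).1 (-n)).2 ?_
  · rw [LinearMap.comp_apply]
    exact hs y
  · rw [LinearMap.comp_apply] at h
    exact H.inj hx h
  · rwa [if_pos rfl, neg_neg]

end Pool.Agent.MP_8be872_ag.H88.Fx
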