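import Pool.Agent.MP_8be872_ag.H88.FxPos

/-! The determinant of `(α | paths | W)` on the fixed locus. -/

namespace Pool.Agent.MP_8be872_ag.H88.Fx

open Finset H38 H56 H63 MvPolynomial
open scoped Matrix

variable {Q : Quiv} {w v D : Fin Q.n → ℕ} {A A' : Type} [CommRing A] [CommRing A']

theorem colP_map {N : Type} [Fintype N] (h : A →+* A') (at' : Fin Q.n → N → Prop)
    (x : Arr Q → Matrix N N A) (y : N → A) (l : List (Arr Q × Fin Q.n)) :
    h ∘ colP at' x y l = colP at' (fun ε => (x ε).map h) (h ∘ y) l := by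
  classical
  induction l with
  | nil => rfl
  | cons s l ih =>
    funext p
    simp only [colP, List.foldr_cons, Function.comp_apply] at ih ⊢
    split_ifs
    · rw [RingHom.map_mulVec, ih]
    · exact map_zero h

theorem single_map {N : Type} [DecidableEq N] (h : A →+* A') (p : N) :
    h ∘ Pi.single p 1 = Pi.single p 1 := by
  funext q
  simp [Pi.single_apply]

theorem Fmat_map (h : A →+* A') (P : Bas Q v → Pth Q w)
    (Y : Kd Q → Matrix (Nb Q w v D) (Nb Q w v D) A) :
    (Fmat P Y).map h = Fmat P fun k => (Y k).map h := by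
  ext p q
  rcases q with τ | b | b
  · rfl
  · simp only [Matrix.map_apply, Fmat]
    rw [← Function.comp_apply (f := h), colP_map, single_map]
  · simp [Fmat]

/-- The matrix of the paths. -/
noncomputable def pmat (P : Bas Q v → Pth Q w)
    (x : Arr Q → Matrix (Bas Q v ⊕ Bas Q w) (Bas Q v ⊕ Bas Q w) A) :
    Matrix (Bas Q v ⊕ Bas Q w) (Bas Q v) A := fun a b =>
  colP (fun j (p : Bas Q v ⊕ Bas Q w) => ∃ a, p = .inl a ∧ a.1 = j) x
    (Pi.single (.inr (P b).1) 1) (P b).2 a

theorem Fold_map (h : Pol0 (Arr Q) (Bas Q v) (Bas Q w) →+* A) (P : Bas Q v → Pth Q w) :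
    h (Fold P) = ((pmat P fun ε => (mat0 ε).map h).submatrix .inl id).det := by
  rw [Fold, RingHom.map_det]
  congr 1
  ext a b
  rw [RingHom.mapMatrix_apply, Matrix.map_apply, Matrix.of_apply, ← Function.comp_apply (f := h),
    colP_map, single_map]
  rfl

variable {σ : Bas Q v ≃ Bas Q v} {d : Bas Q v → ℕ} {lab : Bas Q D → Bas Q v × ℕ}
  {e : Fin Q.n → ℕ → ℤ} (H : Dat σ d lab e)
include H

theorem Dat.colP_Tp (x : Arr Q → Matrix (Bas Q v ⊕ Bas Q w) (Bas Q v ⊕ Bas Q w) A)
    (y : Bas Q v ⊕ Bas Q w → A) (l : List (Arr Q × Fin Q.n)) :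
    colP (fun j p => blk p < 2 ∧ vx p = j) (fun ε => (H.lay w).Tp (x ε)) ((H.lay w).Tv y) l =
      (H.lay w).Tv (colP (fun j p => ∃ a, p = .inl a ∧ a.1 = j) x y l) := by
  induction l with
  | nil => rfl
  | cons s l ih =>
    funext p
    simp only [colP, List.foldr_cons] at ih ⊢
    have h : (blk p < 2 ∧ vx p = s.2) ↔ ∃ a, (H.lay w).s p = .inl a ∧ a.1 = s.2 := by
      rw [H.vx_eq, blk_lt (σ := σ) (lab := lab)]
      change _ ↔ ∃ a, fg σ lab p = .inl a ∧ a.1 = s.2
      rcases fg σ lab p with a | a <;> simp [vC]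
    rw [ih, Lay.Tp_mulVec]
    simp only [Lay.Tv, h]
    split_ifs <;> rfl

theorem Dat.lay_W {p : Nb Q w v D} {b : Bas Q w} :
    (H.lay w).s p = .inr b ↔ p = .inr (.inr b) := by
  rcases p with τ | a | b <;> simp [Dat.lay, fg]

theorem Dat.Tv_single (b : Bas Q w) :
    (H.lay w).Tv (Pi.single (.inr b) (1 : A)) = Pi.single (.inr (.inr b)) 1 := by
  funext p
  simp only [Lay.Tv, Pi.single_apply, H.lay_W]
  split_ifs with h1 h2 h2
  · rfl
  · rfl
  · exact absurd (h2 ▸ rfl) h1
  · rfl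

theorem Dat.det_eq (P : Bas Q v → Pth Q w) : ∃ u : ℤˣ,
    ∀ (Y : Kd Q → Matrix (Nb Q w v D) (Nb Q w v D) A)
      (x : Arr Q → Matrix (Bas Q v ⊕ Bas Q w) (Bas Q v ⊕ Bas Q w) A),
      Y ka = (H.lay w).sh A 1 → (∀ ε, Y (kx ε) = (H.lay w).Tp (x ε)) →
      ((u : ℤ) : A) * (Fmat P Y).det = ((pmat P x).submatrix .inl id).det := by
  have hex : ∀ p : Nb Q w v D, ∃ r, (H.lay w).s r = Sum.elim (fun τ => (H.lay w).s (.inl τ)) id p ∧
      (H.lay w).l r = Sum.elim (fun τ => (H.lay w).l (.inl τ) + 1) 0 p := by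
    rintro (τ | c)
    · refine (H.lay w).surj _ _ (by have := (H.lay w).nn (.inl τ); simp only [Sum.elim_inl]; omega)
        ((lt_of_le_of_ne ((H.lay w).le (.inl τ)) fun h =>
          (H.top_iff (w := w) (.inl τ)).1 h rfl))
    · exact (H.lay w).surj _ _ le_rfl ((H.lay w).e0 _)
  choose π h1 h2 using hex
  have h3 : ∀ p τ, ((H.lay w).s (π p) = (H.lay w).s (.inl τ) ∧
      (H.lay w).l (π p) = (H.lay w).l (.inl τ) + (1 : ℕ)) ↔ p = .inl τ := by
    intro p τ
    rw [h1, h2]
    rcases p with τ' | c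
    · exact ⟨fun h => (H.lay w).inj _ _ h.1 (by simpa using h.2), fun h => h ▸ ⟨rfl, rfl⟩⟩
    · have := (H.lay w).nn (.inl τ)
      simp only [Sum.elim_inr, Pi.zero_apply, reduceCtorEq, iff_false, not_and]
      omega
  have h4 : Function.Injective π := by
    intro p p' h
    rcases p' with τ | c'
    · exact (h3 p τ).1 (h ▸ (h3 _ τ).2 rfl)
    · rcases p with τ | c
      · exact ((h3 _ τ).1 (h ▸ (h3 _ τ).2 rfl)).symm
      · exact congrArg _ ((h1 (.inr c)).symm.trans (h ▸ h1 (.inr c')))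
  refine ⟨Equiv.Perm.sign (Equiv.ofBijective π h4.bijective_of_finite), fun Y x hα hx => ?_⟩
  rw [← Matrix.det_permute]
  have key : (Fmat P Y).submatrix (Equiv.ofBijective π h4.bijective_of_finite) id =
      Matrix.fromBlocks 1 0 0 (Matrix.fromBlocks ((pmat P x).submatrix .inl id) 0
        ((pmat P x).submatrix .inr id) 1) := by
    ext p q
    rcases q with τ | b | b
    · change Y ka (π p) (.inl τ) = _
      rw [hα, Lay.sh]
      simp only [h3]
      rcases p with τ' | c <;> simp [Matrix.one_apply]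
    · rw [Matrix.submatrix_apply, Equiv.ofBijective_apply]
      simp only [Fmat, id, hx]
      rw [← H.Tv_single, H.colP_Tp, Lay.Tv, h1, h2]
      rcases p with τ' | a | a
      · have := (H.lay w).nn (.inl τ')
        exact if_neg (by simp only [Sum.elim_inl]; omega)
      · exact if_pos rfl
      · exact if_pos rfl
    · rw [Matrix.submatrix_apply, Equiv.ofBijective_apply]
      simp only [Fmat, id, ← H.lay_W, h1]
      rcases p with τ' | a | a <;> simp [Matrix.one_apply, Dat.lay, fg]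
  rw [key, Matrix.det_fromBlocks_zero₂₁, Matrix.det_fromBlocks_zero₁₂, Matrix.det_one,
    Matrix.det_one, one_mul, mul_one]

end Pool.Agent.MP_8be872_ag.H88.Fx
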