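import Pool.Agent.MP_8be872_ag.H63.LocA
import Pool.Agent.MP_8be872_ag.H63.ApiC

/-! Substitutions between free supercommutative algebras. -/

namespace Pool.Agent.MP_8be872_ag.H88.Fx

open Finset H38 H56 H63 MvPolynomial

variable {E O E' O' : Type} [Fintype E] [Fintype O] [DecidableEq E] [DecidableEq O]
  [Fintype E'] [Fintype O'] [DecidableEq E'] [DecidableEq O']
  {ρ : E ⊕ O → Module.End ℂ (Sp E' O')}

/-- The images of the generators supercommute. -/
def Sc (ρ : E ⊕ O → Module.End ℂ (Sp E' O')) : Prop :=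
  ∀ g h, ρ g * ρ h = sg (g.isRight && h.isRight) • (ρ h * ρ g)

omit [Fintype E] [Fintype O] [DecidableEq E] [DecidableEq O] in
theorem sc_of (h : ∀ g, ρ g ∈ words fun μ => od μ = g.isRight) : Sc ρ :=
  fun g g' => words_comm (h g) (h g')

theorem lift_mem {Γ : Type} [AddCommMonoid Γ] {c : E ⊕ O → Γ} {c' : E' ⊕ O' → Γ}
    {A' : E' ⊕ O' → Prop}
    (h : ∀ g, ρ g ∈ words fun μ => sup A' μ ∧ ws c' μ = c g ∧ od μ = g.isRight) {γ : Γ} {p : Bool}
    {x : Sp E O} (hx : x ∈ mono fun μ => ws c μ = γ ∧ od μ = p) :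
    lift ρ x ∈ words fun μ => sup A' μ ∧ ws c' μ = γ ∧ od μ = p := by
  have hρ : Sc ρ := sc_of fun g => words_le (fun _ a => a.2.2) (h g)
  have key : ∀ l : List (E ⊕ O), (l.map ρ).prod ∈ words fun μ => sup A' μ ∧
      ws c' μ = ws c (fun g => l.count g) ∧ od μ = od fun g => l.count g := by
    intro l
    induction l with
    | nil =>
      refine one_mem_words ⟨fun _ h0 => absurd rfl h0, ?_, ?_⟩
      · exact (ws_zero _).trans (ws_zero c).symm
      · exact od_zero.trans od_nil.symm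
    | cons g l ih =>
      rw [List.map_cons, List.prod_cons, count_consB]
      refine mul_mem_words (h g) ih fun a b ha hb => ⟨sup_add.2 ⟨ha.1, hb.1⟩, ?_, ?_⟩
      · rw [ws_add, ws_add, ws_single, ha.2.1, hb.2.1]
      · rw [od_add, od_add, od_single, ha.2.2, hb.2.2]
  refine map_mem_of_bas (fun S m hm => ?_) hx
  obtain ⟨l, h1, h2⟩ := bas_eq_word S m
  rw [h2, apiC_word hρ, lift_one, mul_one, ← hm.1, ← hm.2, ← h1]
  exact key l

theorem lift_par (h : ∀ g, ρ g ∈ words fun μ => od μ = g.isRight) {p : Bool} {x : Sp E O}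
    (hx : x ∈ mono fun μ => od μ = p) : lift ρ x ∈ words fun μ => od μ = p :=
  words_le (fun _ a => a.2.2) (lift_mem (c := fun _ => ()) (c' := fun _ => ()) (γ := ())
    (A' := fun _ => True) (fun g => words_le (fun _ a => ⟨fun _ _ => trivial, rfl, a⟩) (h g))
    (mono_le (fun _ a => ⟨rfl, a⟩) hx))

/-- The substitution as a map of algebras. -/
noncomputable def lo (ρ : E ⊕ O → Module.End ℂ (Sp E' O')) : Sp E O →ₗ[ℂ] Sp E' O' :=
  LinearMap.applyₗ one ∘ₗ lift ρ

omit [Fintype E'] [Fintype O'] [DecidableEq E'] in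
theorem lo_one : lo ρ one = one := by
  change lift ρ one one = one
  rw [lift_one, Module.End.one_apply]

omit [Fintype E'] [Fintype O'] [DecidableEq E'] in
theorem lo_gn (hρ : Sc ρ) (g : E ⊕ O) (x : Sp E O) : lo ρ (gn g x) = ρ g (lo ρ x) := by
  change lift ρ _ one = _
  rw [lift_gn hρ]
  rfl

omit [Fintype E'] [Fintype O'] [DecidableEq E'] in
theorem lo_words (hρ : Sc ρ) {P : (E ⊕ O → ℕ) → Prop} {m : Module.End ℂ (Sp E O)}
    (hm : m ∈ words P) (x : Sp E O) : lo ρ (m x) = lift ρ (m one) (lo ρ x) := by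
  change lift ρ _ one = _
  rw [lift_words hρ hm]
  rfl

omit [Fintype E'] [Fintype O'] [DecidableEq E'] [DecidableEq O'] in
theorem lift_has (hρ : Sc ρ) {K : E ⊕ O → Prop} (hK : ∀ g, K g → ρ g = 0) {x : Sp E O}
    (hx : x ∈ mono (has K)) : lift ρ x = 0 := by
  refine map_mem_of_bas (C := ⊥) (fun S m hm => ?_) hx
  obtain ⟨l, h1, h2⟩ := bas_eq_word S m
  obtain ⟨g, h3, h4⟩ := hm
  rw [← h1] at h4
  have h5 : g ∈ l := by
    by_contra h0
    refine h4 (List.countP_eq_zero.2 fun a ha hb => h0 ?_)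
    exact (beq_iff' a g).1 hb ▸ ha
  rw [h2, apiC_word hρ, List.prod_eq_zero (List.mem_map.2 ⟨g, h5, hK g h3⟩), zero_mul]
  exact Submodule.zero_mem _

theorem lift_mul (hρ : Sc ρ) {ρ₀ : E → MvPolynomial E' ℂ} (h : ∀ e, ρ (.inl e) = mul (ρ₀ e))
    (F : MvPolynomial E ℂ) (x : Sp E O) : lift ρ (mul F x) = mul (aeval ρ₀ F) * lift ρ x := by
  induction F using MvPolynomial.induction_on generalizing x with
  | C a =>
    rw [mul_C, aeval_C, algebraMap_eq, mul_C, Module.algebraMap_end_apply, map_smul,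
      Algebra.smul_def]
  | add p q hp hq => rw [mul_add', LinearMap.add_apply, map_add, hp, hq, map_add, mul_add', add_mul]
  | mul_X p e hp =>
    rw [mul_mul, Module.End.mul_apply, hp, map_mul, aeval_X, mul_mul, ← h, mul_assoc,
      ← lift_gn hρ]
    rfl

theorem words_stab {C : Submodule ℂ (Sp E O)} (hC : ∀ g, ∀ x ∈ C, gn g x ∈ C)
    {P : (E ⊕ O → ℕ) → Prop} {m : Module.End ℂ (Sp E O)} (hm : m ∈ words P) {x : Sp E O}
    (hx : x ∈ C) : m x ∈ C := by
  have key : ∀ l : List (E ⊕ O), (l.map gn).prod x ∈ C := by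
    intro l
    induction l with
    | nil => exact hx
    | cons g l ih => exact hC g _ ih
  exact words_le_of (C := C.comap (LinearMap.applyₗ x)) (fun l _ => key l) hm

theorem par_mem {C : Submodule ℂ (Sp E O)} (hC : ∀ g, ∀ x ∈ C, gn g x ∈ C) {a : Bool}
    {m : Module.End ℂ (Sp E O)} (hm : m ∈ words fun μ => od μ = a) (h1 : m one ∈ C)
    (z : Sp E O) : m z ∈ C := by
  refine mono_ind (A := fun _ => True) (C := C.comap m) h1 (fun g _ x _ hx => ?_)
    (mem_mono.2 fun _ _ _ _ _ => trivial)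
  have h := words_comm hm (gn_mem_words (od_single g))
  change (m * gn g) x ∈ C
  rw [h]
  exact C.smul_mem _ (hC g _ hx)

theorem has_stab (K : E ⊕ O → Prop) (g : E ⊕ O) (x : Sp E O) (hx : x ∈ mono (has K)) :
    gn g x ∈ mono (has K) := gn_mem g hx fun _ h => has_add.2 (Or.inl h)

theorem has_apply {K : E ⊕ O → Prop} {m : Module.End ℂ (Sp E O)} (hm : m ∈ words (has K))
    (z : Sp E O) : m z ∈ mono (has K) :=
  words_apply_mem hm (apiC_top z) fun _ _ h _ => has_add.2 (Or.inl h)

section Ext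

variable {I : Ideal (MvPolynomial E ℂ)}

omit [Fintype E] [Fintype O] [DecidableEq E] [DecidableEq O] in
theorem mem_ext {x : Sp E O} : x ∈ extOf O (I.restrictScalars ℂ) ↔ ∀ S, x S ∈ I :=
  ⟨fun h S => h S trivial, fun h S _ => h S⟩

omit [Fintype E] [DecidableEq E] in
theorem gn_ext (g : E ⊕ O) (x : Sp E O) (hx : x ∈ extOf O (I.restrictScalars ℂ)) :
    gn g x ∈ extOf O (I.restrictScalars ℂ) := by
  refine mem_ext.2 fun S => ?_
  rcases g with e | o
  · exact I.mul_mem_left _ (mem_ext.1 hx S)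
  · simp only [gn, wedge, LinearMap.pi_apply]
    split_ifs
    · exact (I.restrictScalars ℂ).smul_mem _ (mem_ext.1 hx _)
    · exact I.zero_mem

omit [Fintype E] [Fintype O] [DecidableEq E] [DecidableEq O] in
theorem mul_ext {r : MvPolynomial E ℂ} (h : r ∈ I) (z : Sp E O) :
    mul r z ∈ extOf O (I.restrictScalars ℂ) := mem_ext.2 fun _ => I.mul_mem_right _ h

omit [Fintype E] [DecidableEq E] in
theorem ext_le {s : Set (MvPolynomial E ℂ)} {C : Submodule ℂ (Sp E O)}
    (h : ∀ r ∈ s, ∀ z, mul r z ∈ C) : extOf O ((Ideal.span s).restrictScalars ℂ) ≤ C := by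
  intro x hx
  rw [← univ_sum_single x]
  refine C.sum_mem fun S _ => ?_
  have key : ∀ p ∈ Ideal.span s, ∀ a, (Pi.single S (a * p) : Sp E O) ∈ C := by
    intro p hp
    induction hp using Submodule.span_induction with
    | mem r hr =>
      intro a
      convert h r hr (Pi.single S a) using 1
      funext S'
      by_cases h1 : S' = S
      · simp [h1, mul_apply', mul_comm]
      · simp [h1, mul_apply']
    | zero => intro a; simp
    | add p q _ _ hp hq => intro a; rw [mul_add, Pi.single_add]; exact C.add_mem (hp a) (hq a)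
    | smul b p _ hp => intro a; rw [smul_eq_mul, ← mul_assoc]; exact hp _
  simpa using key _ (mem_ext.1 hx S) 1

theorem has_ext {K : E ⊕ O → Prop} (h : ∀ g, K g → ∃ e, g = .inl e ∧ X e ∈ I) :
    mono (has K) ≤ extOf O (I.restrictScalars ℂ) := by
  refine mono_le_of_bas fun S m ⟨g, h1, h2⟩ => mem_ext.2 fun S' => ?_
  obtain ⟨e, rfl, he⟩ := h g h1
  by_cases h3 : S' = S
  · rw [bas, h3, Pi.single_eq_same]
    exact I.mem_of_dvd (X_dvd_monomial.2 (Or.inr h2)) he
  · rw [bas, Pi.single_eq_of_ne h3]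
    exact I.zero_mem

end Ext

theorem lin_single (g : E ⊕ O) : lin (Pi.single g 1) = gn g := by
  simp [lin, Pi.single_apply]

omit [DecidableEq E] in
theorem lin_zero : lin (0 : E ⊕ O → ℂ) = 0 := by simp [lin]

omit [DecidableEq E] in
theorem lin_sub (u u' : E ⊕ O → ℂ) : lin (u - u') = lin u - lin u' := by
  rw [lin, lin, lin, ← sum_sub_distrib]
  exact sum_congr rfl fun g _ => LinearMap.ext fun x => sub_smul (u g) (u' g) (gn g x)

theorem lin_sum {ι : Type} [Fintype ι] (a : ι → ℂ) (g : ι → E ⊕ O) :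
    lin (∑ i, a i • Pi.single (g i) (1 : ℂ)) = ∑ i, a i • gn (g i) := by
  simp only [lin, Finset.sum_apply, Pi.smul_apply, sum_smul, smul_assoc]
  rw [sum_comm]
  refine sum_congr rfl fun i _ => ?_
  rw [← smul_sum]
  exact congrArg _ (lin_single (g i))

theorem gn_dr {o : O} {x : Sp E O} (hx : x ∈ mono fun μ => μ (.inr o) ≠ 0) :
    gn (.inr o) (dr (.inr o) x) = x := by
  have h0 : gn (.inr o) x = 0 := by
    have h1 := gn_mem (P' := fun μ => 2 ≤ μ (.inr o)) (.inr o) hx fun μ h => by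
      simp only [Pi.add_apply, Pi.single_eq_same]
      omega
    have h2 := mono_le_odd (P' := fun _ => False) (fun μ h h' => by have := h o; omega) h1
    rwa [mono_false] at h2
  have h := LinearMap.congr_fun (dr_mul_gn (E := E) (.inr o) (.inr o)) x
  simp only [Sum.isRight_inr, Bool.and_self, sg_true, if_true, Module.End.mul_apply, h0, map_zero,
    LinearMap.add_apply, LinearMap.smul_apply, Module.End.one_apply, neg_smul, one_smul] at h
  exact neg_add_eq_zero.1 h.symm

section Mat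

variable {N : Type} [Fintype N] {A A' B B' : Matrix N N (Module.End ℂ (Sp E O))}

theorem mat_par {a b : Bool} (hA : ∀ p q, A p q ∈ words fun μ => od μ = a)
    (hB : ∀ p q, B p q ∈ words fun μ => od μ = b) (p q : N) :
    (A * B) p q ∈ words fun μ => od μ = xor a b :=
  Submodule.sum_mem _ fun r _ => mul_mem_words (hA p r) (hB r q) fun _ _ h h' => by
    rw [od_add, h, h']

theorem mat_diff {K : E ⊕ O → Prop} (hA : ∀ p q, A' p q ∈ words fun _ => True)
    (hB : ∀ p q, B p q ∈ words fun _ => True) (h1 : ∀ p q, (A - A') p q ∈ words (has K))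
    (h2 : ∀ p q, (B - B') p q ∈ words (has K)) (p q : N) :
    (A * B - A' * B') p q ∈ words (has K) := by
  have e : A * B - A' * B' = (A - A') * B + A' * (B - B') := by
    rw [Matrix.sub_mul, Matrix.mul_sub, sub_add_sub_cancel]
  rw [e, Matrix.add_apply]
  exact Submodule.add_mem _
    (Submodule.sum_mem _ fun r _ => mul_mem_words (h1 p r) (hB r q) fun _ _ h _ =>
      has_add.2 (Or.inl h))
    (Submodule.sum_mem _ fun r _ => mul_mem_words (hA p r) (h2 r q) fun _ _ _ h =>
      has_add.2 (Or.inr h))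

end Mat

end Pool.Agent.MP_8be872_ag.H88.Fx
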