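import Pool.Agent.MP_8be872_ag.H88.FxDet
import Pool.Agent.MP_8be872_ag.H88.FxAbs

/-! The matrices on the fixed locus and their Toeplitz extensions. -/

namespace Pool.Agent.MP_8be872_ag.H88.Fx

open Finset H38 H56 H63 MvPolynomial
open scoped Matrix

variable {Q : Quiv} {w v D : Fin Q.n → ℕ}

section Phi

variable {N R : Type} [Fintype N] [Ring R] (Y : Kd Q → Matrix N N R)

theorem Phi_x (ε : Arr Q) : Phi Q Y (kx ε) = Y (kx ε) * Y kc - Y kc * Y (kx ε) := rfl

theorem Phi_c : Phi Q Y kc = -(Y kc * Y kc) := rfl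

theorem Phi_e : Phi Q Y ke = ∑ o, (Y (kx (o, true)) * Y (kx (o, false)) -
    Y (kx (o, false)) * Y (kx (o, true))) - Y kc * Y ke - Y ke * Y kc := rfl

/-- The kinds that survive on the fixed locus. -/
def Sv (k : Kd Q) : Prop := (∃ ε, k = kx ε) ∨ k = kc ∨ k = ke

/-- The Toeplitz extension is additive. -/
def TpA {C : Type} (Λ : Lay N C) : Matrix C C R →+ Matrix N N R where
  toFun := Λ.Tp
  map_zero' := by
    ext p q
    simp [Lay.Tp]
  map_add' M M' := by
    ext p q
    simp only [Lay.Tp, Matrix.add_apply]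
    split_ifs <;> simp

theorem Phi_Tp {C : Type} [Fintype C] (Λ : Lay N C) (Y' : Kd Q → Matrix C C R)
    (h : ∀ k, Sv k → Y k = Λ.Tp (Y' k)) (ht : ∀ k, Λ.Tri (Y' k)) {k : Kd Q} (hk : Sv k) :
    Phi Q Y k = Λ.Tp (Phi Q Y' k) := by
  have hx := fun ε => h _ (Or.inl ⟨ε, rfl⟩)
  have hc := h _ (Or.inr (Or.inl rfl))
  have he := h _ (Or.inr (Or.inr rfl))
  change _ = TpA Λ _
  rcases hk with ⟨ε, rfl⟩ | rfl | rfl <;>
    simp only [Phi_x, Phi_c, Phi_e, hx, hc, he, Λ.Tp_mul _ (ht _), map_sub, map_neg, map_sum] <;> rfl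

variable {E O : Type} [Fintype E] [Fintype O] [DecidableEq E] [DecidableEq O]
  {Y Y' : Kd Q → Matrix N N (Module.End ℂ (Sp E O))}

theorem Phi_par (h : ∀ k p q, Y k p q ∈ words fun μ => od μ = k.isRight) {k : Kd Q} (hk : Sv k)
    (p q : N) : Phi Q Y k p q ∈ words fun μ => od μ = xor k.isRight true := by
  have m := fun k k' => mat_par (h k) (h k') p q
  rcases hk with ⟨ε, rfl⟩ | rfl | rfl
  · exact Submodule.sub_mem _ (m (kx ε) kc) (m kc (kx ε))
  · exact Submodule.neg_mem _ (m kc kc)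
  · rw [Phi_e, Matrix.sub_apply, Matrix.sub_apply, Matrix.sum_apply]
    exact Submodule.sub_mem _ (Submodule.sub_mem _ (Submodule.sum_mem _ fun o _ =>
      Submodule.sub_mem _ (m (kx _) (kx _)) (m (kx _) (kx _))) (m kc ke)) (m ke kc)

theorem Phi_sub {K : E ⊕ O → Prop} (h : ∀ k p q, Y k p q ∈ words fun _ => True)
    (h' : ∀ k p q, Y' k p q ∈ words fun _ => True)
    (hK : ∀ k p q, (Y k - Y' k) p q ∈ words (has K)) {k : Kd Q} (hk : Sv k) (p q : N) :
    Phi Q Y k p q - Phi Q Y' k p q ∈ words (has K) := by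
  have m : ∀ k k', (Y k * Y k') p q - (Y' k * Y' k') p q ∈ words (has K) :=
    fun k k' => mat_diff (h' k) (h k') (hK k) (hK k') p q
  rcases hk with ⟨ε, rfl⟩ | rfl | rfl
  · rw [Phi_x, Phi_x, Matrix.sub_apply, Matrix.sub_apply, sub_sub_sub_comm]
    exact Submodule.sub_mem _ (m _ _) (m _ _)
  · rw [Phi_c, Phi_c, Matrix.neg_apply, Matrix.neg_apply, neg_sub_neg, ← neg_sub]
    exact Submodule.neg_mem _ (m _ _)
  · simp only [Phi_e, Matrix.sub_apply, Matrix.sum_apply]
    rw [sub_sub_sub_comm, sub_sub_sub_comm (∑ _, _), ← sum_sub_distrib]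
    refine Submodule.sub_mem _ (Submodule.sub_mem _ (Submodule.sum_mem _ fun o _ => ?_) (m _ _))
      (m _ _)
    rw [sub_sub_sub_comm]
    exact Submodule.sub_mem _ (m _ _) (m _ _)

end Phi

theorem ofM_gg {J A : Type} (M : Kd Q → Nb Q w v D → Nb Q w v D → A) (t e : J → A) (k : Kd Q)
    (p q : Nb Q w v D) : ofM M t e (gg k p q) = M k p q := by
  cases k <;> rfl

theorem gen_cases {J : Type} (g : Ix Q w v D J ⊕ Ix Q w v D J) :
    (∃ k p q, g = gg k p q) ∨ (∃ j, g = tv j) ∨ ∃ j, g = ev j := by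
  rcases g with (⟨τ, p, q⟩ | j) | (⟨τ, p, q⟩ | j)
  · exact Or.inl ⟨.inl τ, p, q, rfl⟩
  · exact Or.inr (Or.inl ⟨j, rfl⟩)
  · exact Or.inl ⟨.inr τ, p, q, rfl⟩
  · exact Or.inr (Or.inr ⟨j, rfl⟩)

theorem gg_isRight {J : Type} (k : Kd Q) (p q : Nb Q w v D) :
    (gg (J := J) k p q).isRight = k.isRight := by
  cases k <;> rfl

theorem gg_ne {J : Type} (k : Kd Q) (p q : Nb Q w v D) (j : J) : gg k p q ≠ ev j := by
  cases k <;> nofun

theorem YS_map {A A' : Type} [Ring A] [Algebra ℂ A] [Ring A'] [Algebra ℂ A'] (h : A →ₐ[ℂ] A')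
    (lab : Bas Q D → Bas Q v × ℕ) (y : Kd Q → Nb Q w v D → Nb Q w v D → A) (k : Kd Q) :
    (YS lab y k).map h = YS lab (fun k p q => h (y k p q)) k := by
  classical
  have h0 : h.mapMatrix ((al0 (w := w) lab).map (algebraMap ℂ A)) =
      (al0 lab).map (algebraMap ℂ A') := by
    ext p q
    exact h.commutes _
  have h1 : h.mapMatrix ((al0 (w := w) lab).map (algebraMap ℂ A))ᵀ =
      ((al0 lab).map (algebraMap ℂ A'))ᵀ := by
    ext p q
    exact h.commutes _
  have hb : ∀ k, h.mapMatrix (fun p q => if shS lab k p q then y k p q else 0) =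
      fun p q => if shS lab k p q then h (y k p q) else 0 := by
    intro k
    ext p q
    change h (ite _ _ _) = _
    split_ifs
    · rfl
    · exact map_zero h
  change h.mapMatrix _ = _
  simp only [YS]
  split_ifs
  · rw [map_add, h0, hb]
  · simp only [map_sum, map_mul, map_pow, map_add, h0, h1, hb]
  · exact hb k

section Lift

variable {J R : Type} [Fintype J] [DecidableEq J] [Ring R] [Algebra ℂ R]
  {ρ : Ix Q w v D J ⊕ Ix Q w v D J → R}
  (hρ : ∀ g h, ρ g * ρ h = sg (g.isRight && h.isRight) • (ρ h * ρ g))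
  (lab : Bas Q D → Bas Q v × ℕ)

/-- The matrices on the slice with entries in the algebra of multiplication operators. -/
noncomputable def YW (J : Type) [Fintype J] [DecidableEq J] : Kd Q → Matrix (Nb Q w v D)
    (Nb Q w v D) (wordsA : Subalgebra ℂ (OpQ Q w v D J)) :=
  YS lab fun k p q => ⟨gn (gg k p q), gn_mem_words (P := fun _ => True) trivial⟩

theorem YW_val (k : Kd Q) :
    (YW (w := w) lab J k).map wordsA.val = YS lab (fun k p q => gn (gg k p q)) k := YS_map _ _ _ _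

theorem YW_lift (k : Kd Q) :
    (YW lab J k).map (liftA hρ) = YS lab (fun k p q => ρ (gg k p q)) k := by
  refine (YS_map _ _ _ _).trans ?_
  congr
  funext k p q
  change lift ρ (gn _ one) = _
  rw [lift_gn hρ, lift_one, mul_one]

include hρ

theorem lift_YS (k : Kd Q) (p q : Nb Q w v D) :
    lift ρ (YS lab (fun k p q => (gn (gg k p q) : OpQ Q w v D J)) k p q one) =
      YS lab (fun k p q => ρ (gg k p q)) k p q := by
  rw [← YW_val, ← YW_lift hρ]
  rfl

theorem lift_Phi (hD : DSqStmt) (k : Kd Q) (p q : Nb Q w v D) :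
    lift ρ (Phi Q (YS lab fun k p q => (gn (gg k p q) : OpQ Q w v D J)) k p q one) =
      Phi Q (YS lab fun k p q => ρ (gg k p q)) k p q := by
  have h1 := hD.1 Q _ _ _ wordsA.val.toRingHom (YW (w := w) lab J) k
  have h2 := hD.1 Q _ _ _ (liftA hρ).toRingHom (YW lab J) k
  rw [← funext (YW_val (w := w) (J := J) lab), ← funext (YW_lift hρ lab)]
  exact (congrArg (fun M => lift ρ (M p q one)) h1).symm.trans (congrFun (congrFun h2 p) q)

end Lift

noncomputable instance decCo : DecidableEq (Option (Co Q w v)) := Classical.decEq _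

variable (w) (e : Fin Q.n → ℕ → ℤ)

/-- The coordinates that vanish on the fixed locus. -/
def Kf (g : Option (Co Q w v) ⊕ Of Q v e) : Prop := ∃ c, ¬ allowed Q w v e c ∧ g = .inl (some c)

/-- The matrices of coordinates on the fixed locus. -/
noncomputable def xk (ε : Arr Q) :
    Matrix (Bas Q v ⊕ Bas Q w) (Bas Q v ⊕ Bas Q w) (Pol (Arr Q) (Bas Q v) (Bas Q w)) :=
  (mat ε).map (kill (Kf w e))

/-- The matrices of generators on the fixed locus. -/
noncomputable def Yk : Kd Q → Matrix (Bas Q v ⊕ Bas Q w) (Bas Q v ⊕ Bas Q w)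
    (Module.End ℂ (Mf Q w v e))
  | .inl (.inl ε) => (xk w e ε).map mul
  | k => Yf Q w v e k

variable {w e} {k : Kd Q} {a b : Bas Q v ⊕ Bas Q w} {g : Option (Co Q w v) ⊕ Of Q v e}

theorem xk_pos {ε : Arr Q} (h : allowed Q w v e (ε, a, b)) :
    xk w e ε a b = X (some (ε, a, b)) :=
  (aeval_X _ _).trans (if_neg fun ⟨_, h1, h2⟩ => h1 (Option.some.inj (Sum.inl.inj h2) ▸ h))

theorem xk_neg {ε : Arr Q} (h : ¬ allowed Q w v e (ε, a, b)) : xk w e ε a b = 0 :=
  (aeval_X _ _).trans (if_pos ⟨_, h, rfl⟩)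

theorem Ent.val (h : Ent e k a b g) : Yk w e k a b = gn g := by
  cases h with
  | x ε a b h => exact congrArg mul (xk_pos h)
  | c a b h => exact dif_pos h
  | η a b h => exact dif_pos h

theorem Ent.df (h : Ent e k a b g) : df Q w v e g = Phi Q (Yf Q w v e) k a b := by
  cases h <;> rfl

theorem Ent.par (h : Ent e k a b g) : k.isRight = g.isRight := by
  cases h <;> rfl

theorem Ent.sv (h : Ent e k a b g) : Sv k := by
  cases h with
  | x ε => exact Or.inl ⟨ε, rfl⟩
  | c => exact Or.inr (Or.inl rfl)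
  | η => exact Or.inr (Or.inr rfl)

theorem Ent.notK (h : Ent e k a b g) : ¬ Kf w e g := by
  rintro ⟨c, h1, rfl⟩
  cases h with
  | x ε a b h => exact h1 h

theorem ent_of_notK (h : ¬ Kf w e g) : g = .inl none ∨ ∃ k a b, Ent e k a b g := by
  rcases g with (_ | ⟨ε, a, b⟩) | ⟨⟨a, b⟩, h1⟩ | ⟨⟨a, b⟩, h1⟩
  · exact Or.inl rfl
  · exact Or.inr ⟨_, _, _, .x ε a b (of_not_not fun h1 => h ⟨_, h1, rfl⟩)⟩
  · exact Or.inr ⟨_, _, _, .c a b h1⟩
  · exact Or.inr ⟨_, _, _, .η a b h1⟩

theorem Yk_cases (k : Kd Q) (a b : Bas Q v ⊕ Bas Q w) :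
    (∃ g, Ent e k a b g) ∨ Yk w e k a b = 0 := by
  rcases k with (ε | _ | _) | (ε | _ | _)
  · by_cases h : allowed Q w v e (ε, a, b)
    · exact Or.inl ⟨_, .x ε a b h⟩
    · exact Or.inr ((congrArg mul (xk_neg h)).trans (map_zero mulA))
  · exact Or.inr rfl
  · exact Or.inr rfl
  · exact Or.inr rfl
  · rcases a with a | a <;> rcases b with b | b <;> try exact Or.inr rfl
    by_cases h : RelP Q v e (a, b)
    · exact Or.inl ⟨_, .η a b h⟩
    · exact Or.inr (dif_neg h)
  · rcases a with a | a <;> rcases b with b | b <;> try exact Or.inr rfl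
    by_cases h : RootP Q v (a, b)
    · exact Or.inl ⟨_, .c a b h⟩
    · exact Or.inr (dif_neg h)

theorem Yk_par (k : Kd Q) (a b : Bas Q v ⊕ Bas Q w) :
    Yk w e k a b ∈ words fun μ => od μ = k.isRight := by
  rcases Yk_cases (e := e) k a b with ⟨g, h⟩ | h
  · rw [h.val, h.par]
    exact gn_mem_words (od_single g)
  · rw [h]
    exact Submodule.zero_mem _

theorem Yf_par (k : Kd Q) (a b : Bas Q v ⊕ Bas Q w) :
    Yf Q w v e k a b ∈ words fun μ => od μ = k.isRight := by
  rcases k with (ε | s) | k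
  · exact gn_mem_words (g := .inl (some (ε, a, b))) (od_single _)
  · exact Yk_par (.inl (.inr s)) a b
  · exact Yk_par (.inr k) a b

theorem Yk_sub (k : Kd Q) (a b : Bas Q v ⊕ Bas Q w) :
    (Yk w e k - Yf Q w v e k : Matrix _ _ _) a b ∈ words (has (Kf w e)) := by
  rcases k with (ε | s) | k
  · rw [Matrix.sub_apply]
    by_cases h : allowed Q w v e (ε, a, b)
    · rw [(Ent.x ε a b h).val]
      exact TL.of_eq (Submodule.zero_mem _) (sub_self _)
    · rw [show Yk w e (kx ε) a b = 0 from (congrArg mul (xk_neg h)).trans (map_zero mulA), zero_sub]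
      exact Submodule.neg_mem _
        (gn_mem_words (g := .inl (some (ε, a, b))) (has_single.2 ⟨_, h, rfl⟩))
  · exact TL.of_eq (Submodule.zero_mem _) (sub_self _)
  · exact TL.of_eq (Submodule.zero_mem _) (sub_self _)

variable {σ : Bas Q v ≃ Bas Q v} {d : Bas Q v → ℕ} {lab : Bas Q D → Bas Q v × ℕ}

theorem Ent.wt {J : Type} {p q : Nb Q w v D} (h : Ent e k (fg σ lab p) (fg σ lab q) g)
    (hl : lv d lab p = lv d lab q) (φ : J → G) (φ₀ : G) :
    wt (xs σ d lab) φ (gg k p q) = wf Q w v e φ₀ g := by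
  rw [H63.wt, ofM_gg, xs_eq, xs_eq, hl, add_sub_add_right_eq_sub]
  generalize fg σ lab p = a at h
  generalize fg σ lab q = b at h
  cases h <;> simp only [wf, polWt, relWt, basWt] <;> abel

variable (H : Dat σ d lab e)
include H

theorem Dat.Yk_tri (k : Kd Q) : (H.lay w).Tri (Yk w e k) := fun a b h =>
  (Yk_cases k a b).resolve_left fun ⟨_, h'⟩ => absurd (H.tri h') (not_le.2 h)

theorem Dat.Tp_zero {p q : Nb Q w v D} (h : ¬ shS lab k p q) (h' : k = kc → blk q ≠ 0) :
    (H.lay w).Tp (Yk w e k) p q = 0 :=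
  ite_eq_right_iff.2 fun hl =>
    (Yk_cases k _ _).resolve_left fun ⟨_, h1⟩ => h (H.sh_of_ent h1 hl h')

theorem Dat.YS_Tp (hk : Sv k) :
    YS lab (fun k => (H.lay w).Tp (Yk w e k)) k = (H.lay w).Tp (Yk w e k) := by
  classical
  have hb : ∀ k, k ≠ kc → (fun p q => if shS lab k p q then (H.lay w).Tp (Yk w e k) p q else 0) =
      (H.lay w).Tp (Yk w e k) := fun k hk => funext fun p => funext fun q =>
    ite_eq_left_iff.2 fun h => (H.Tp_zero h fun h' => absurd h' hk).symm
  have h0 : ∀ i, ((H.lay w).sh ℂ i).map (algebraMap ℂ (Module.End ℂ (Mf Q w v e))) =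
      (H.lay w).sh _ i := fun i => by
    ext1 p q
    simp only [Matrix.map_apply, Lay.sh]
    split_ifs
    · exact map_one _
    · exact map_zero _
  simp only [YS]
  rcases hk with ⟨ε, rfl⟩ | rfl | rfl
  · rw [if_neg nofun, if_neg nofun]
    exact hb _ nofun
  · rw [if_neg nofun, if_pos rfl, (hb ka nofun).trans (map_zero (TpA _)), add_zero, H.al0_eq]
    refine (sum_congr rfl fun i _ => ?_).trans ((H.lay w).ctil (H.Yk_tri kc)
      (fun p q => if shS lab kc p q then (H.lay w).Tp (Yk w e kc) p q else 0) (fun p q => ?_) _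
      H.e_le)
    · rw [← Matrix.transpose_map, ← Matrix.map_pow, ← Matrix.transpose_pow, Lay.sh_pow,
        Matrix.transpose_map, h0, h0, Lay.sh_pow]
    · by_cases h : shS lab kc p q
      · rw [if_pos h]
        exact (if_pos ((H.top_iff q).2 (top_of_c h))).symm
      · rw [if_neg h]
        exact (ite_eq_right_iff.2 fun h1 => H.Tp_zero h fun _ => (H.top_iff q).1 h1).symm
  · rw [if_neg nofun, if_neg nofun]
    exact hb _ nofun

end Pool.Agent.MP_8be872_ag.H88.Fx
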