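import Mathlib

/-! Toeplitz extensions of triangular matrices to a set with levels. -/

namespace Pool.Agent.MP_8be872_ag.H88.Fx

open Finset
open scoped Matrix

/-- Over every `c` there is exactly one element of each level `0, …, e c`. -/
structure Lay (N C : Type) where
  s : N → C
  l : N → ℤ
  e : C → ℤ
  inj : ∀ p p', s p = s p' → l p = l p' → p = p'
  surj : ∀ c k, 0 ≤ k → k ≤ e c → ∃ p, s p = c ∧ l p = k
  nn : ∀ p, 0 ≤ l p
  le : ∀ p, l p ≤ e (s p)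
  e0 : ∀ c, 0 ≤ e c

variable {N C A : Type} [Fintype N] [Fintype C] [DecidableEq N] [DecidableEq C] [Ring A]
  (Λ : Lay N C)

/-- The shift by `n` levels. -/
def Lay.sh (A : Type) [Ring A] (n : ℕ) : Matrix N N A :=
  fun p q => if Λ.s p = Λ.s q ∧ Λ.l p = Λ.l q + n then 1 else 0

/-- The Toeplitz extension. -/
def Lay.Tp (M : Matrix C C A) : Matrix N N A :=
  fun p q => if Λ.l p = Λ.l q then M (Λ.s p) (Λ.s q) else 0

/-- Vectors at level zero. -/
def Lay.Tv (y : C → A) : N → A := fun p => if Λ.l p = 0 then y (Λ.s p) else 0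

/-- Triangular matrices. -/
def Lay.Tri (M : Matrix C C A) : Prop := ∀ a b, Λ.e a < Λ.e b → M a b = 0

omit [DecidableEq N] [DecidableEq C] in
theorem Lay.sum_lvl (k : ℤ) (hk : 0 ≤ k) (F : C → A) :
    ∑ r, (if Λ.l r = k then F (Λ.s r) else 0) = ∑ c, if k ≤ Λ.e c then F c else 0 := by
  rw [← sum_filter, ← sum_filter]
  refine sum_bij (fun r _ => Λ.s r) (fun r hr => ?_) (fun r hr r' hr' h => ?_) (fun c hc => ?_)
    fun _ _ => rfl
  · exact mem_filter.2 ⟨mem_univ _, (mem_filter.1 hr).2 ▸ Λ.le r⟩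
  · exact Λ.inj r r' h ((mem_filter.1 hr).2.trans (mem_filter.1 hr').2.symm)
  · obtain ⟨p, h1, h2⟩ := Λ.surj c k hk (mem_filter.1 hc).2
    exact ⟨p, mem_filter.2 ⟨mem_univ _, h2⟩, h1⟩

omit [DecidableEq N] [DecidableEq C] in
theorem Lay.Tp_mul (M : Matrix C C A) {M' : Matrix C C A} (h : Λ.Tri M') :
    Λ.Tp M * Λ.Tp M' = Λ.Tp (M * M') := by
  ext p q
  rw [Matrix.mul_apply, Lay.Tp]
  split_ifs with hpq
  · rw [Matrix.mul_apply]
    have e := Λ.sum_lvl (Λ.l q) (Λ.nn q) fun c => M (Λ.s p) c * M' c (Λ.s q)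
    refine (sum_congr rfl fun r _ => ?_).trans (e.trans (sum_congr rfl fun c _ => ?_))
    · simp only [Lay.Tp, hpq]
      by_cases hr : Λ.l r = Λ.l q
      · rw [if_pos hr, if_pos hr, if_pos hr.symm]
      · rw [if_neg hr, if_neg hr, mul_zero]
    · split_ifs with hc
      · rfl
      · rw [h c _ ((not_le.1 hc).trans_le (Λ.le q)), mul_zero]
  · refine sum_eq_zero fun r _ => ?_
    simp only [Lay.Tp]
    split_ifs with h1 h2
    · exact absurd (h1.trans h2) hpq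
    · rw [mul_zero]
    · rw [zero_mul]
    · rw [zero_mul]

omit [DecidableEq N] [DecidableEq C] in
theorem Lay.Tp_mulVec (M : Matrix C C A) (y : C → A) :
    Λ.Tp M *ᵥ Λ.Tv y = Λ.Tv (M *ᵥ y) := by
  funext p
  simp only [Matrix.mulVec, dotProduct, Lay.Tp, Lay.Tv]
  split_ifs with hp
  · have e := Λ.sum_lvl 0 le_rfl fun c => M (Λ.s p) c * y c
    simp only [Λ.e0, if_true] at e
    refine (sum_congr rfl fun r _ => ?_).trans e
    by_cases hr : Λ.l r = 0
    · rw [if_pos hr, if_pos hr, if_pos (hp.trans hr.symm)]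
    · rw [if_neg hr, if_neg hr, mul_zero]
  · refine sum_eq_zero fun r _ => ?_
    split_ifs with h1 h2
    · exact absurd (h1.trans h2) hp
    · rw [mul_zero]
    · rw [zero_mul]
    · rw [zero_mul]

omit [Fintype C] [DecidableEq N] in
theorem Lay.sh_mul (m n : ℕ) : Λ.sh A m * Λ.sh A n = Λ.sh A (m + n) := by
  ext p q
  rw [Matrix.mul_apply, Lay.sh]
  split_ifs with h
  · obtain ⟨r, h1, h2⟩ := Λ.surj (Λ.s q) (Λ.l q + n) (by have := Λ.nn q; omega)
      (by have := Λ.le p; rw [h.1, h.2] at this; push_cast at this; omega)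
    rw [sum_eq_single r (fun r' _ hr => ?_) (fun h0 => absurd (mem_univ r) h0)]
    · simp only [Lay.sh]
      rw [if_pos ⟨h.1.trans h1.symm, by rw [h.2, h2]; push_cast; ring⟩, if_pos ⟨h1, h2⟩, mul_one]
    · simp only [Lay.sh]
      rw [if_neg (c := Λ.s r' = Λ.s q ∧ _) fun h3 =>
        hr (Λ.inj _ _ (h3.1.trans h1.symm) (h3.2.trans h2.symm)), mul_zero]
  · refine sum_eq_zero fun r _ => ?_
    simp only [Lay.sh]
    split_ifs with h1 h2
    · exact absurd ⟨h1.1.trans h2.1, by rw [h1.2, h2.2]; push_cast; ring⟩ h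
    · rw [mul_zero]
    · rw [zero_mul]
    · rw [zero_mul]

omit [Fintype C] in
theorem Lay.sh_pow (n : ℕ) : Λ.sh A 1 ^ n = Λ.sh A n := by
  induction n with
  | zero =>
    ext p q
    simp only [pow_zero, Matrix.one_apply, Lay.sh, Nat.cast_zero, add_zero]
    exact if_congr ⟨fun h => h ▸ ⟨rfl, rfl⟩, fun h => Λ.inj _ _ h.1 h.2⟩ rfl rfl
  | succ n ih => rw [pow_succ, ih, Λ.sh_mul]

omit [Fintype C] [DecidableEq N] in
theorem Lay.toe {M : Matrix C C A} (h : Λ.Tri M) (p : N) {q q' : N} {n : ℕ}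
    (h1 : Λ.s q' = Λ.s q) (h2 : Λ.l q' = Λ.l q + n) (h3 : Λ.l q' = Λ.e (Λ.s q)) :
    Λ.Tp M p q = ∑ p', Λ.sh A n p' p * Λ.Tp M p' q' := by
  by_cases hz : Λ.l p = Λ.l q ∧ Λ.e (Λ.s q) ≤ Λ.e (Λ.s p)
  · obtain ⟨r, h4, h5⟩ := Λ.surj (Λ.s p) (Λ.l q') (Λ.nn _) (h3 ▸ hz.2)
    rw [sum_eq_single r (fun r' _ hr => ?_) (fun h0 => absurd (mem_univ r) h0)]
    · simp only [Lay.sh, Lay.Tp]
      rw [if_pos hz.1, if_pos ⟨h4, by rw [h5, h2, hz.1]⟩, if_pos h5, one_mul, h4, h1]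
    · simp only [Lay.sh]
      rw [if_neg fun h6 => hr (Λ.inj _ _ (h6.1.trans h4.symm) (by rw [h6.2, h5, h2, hz.1])),
        zero_mul]
  · rw [sum_eq_zero fun r _ => ?_]
    · simp only [Lay.Tp]
      split_ifs with h4
      · exact h _ _ (not_le.1 fun h5 => hz ⟨h4, h5⟩)
      · rfl
    · simp only [Lay.sh, Lay.Tp]
      split_ifs with h4 h5
      · refine absurd ⟨by omega, ?_⟩ hz
        rw [← h3, ← h5, ← h4.1]
        exact Λ.le r
      · rw [mul_zero]
      · rw [zero_mul]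
      · rw [zero_mul]

omit [Fintype C] [DecidableEq N] in
theorem Lay.ctil {M : Matrix C C A} (h : Λ.Tri M) (B : Matrix N N A)
    (hB : ∀ p q, B p q = if Λ.l q = Λ.e (Λ.s q) then Λ.Tp M p q else 0) (K : ℕ)
    (hK : ∀ c, Λ.e c ≤ K) :
    ∑ i ∈ range (K + 1), (Λ.sh A i)ᵀ * B * Λ.sh A i = Λ.Tp M := by
  ext p q
  obtain ⟨q', h1, h3⟩ := Λ.surj (Λ.s q) _ (Λ.e0 _) le_rfl
  obtain ⟨n, hn⟩ := Int.eq_ofNat_of_zero_le (sub_nonneg.2 (Λ.le q))
  have h2 : Λ.l q' = Λ.l q + n := by omega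
  have key : ∀ (i : ℕ) r, (B * Λ.sh A i) r q = if i = n then Λ.Tp M r q' else 0 := by
    intro i r
    rw [Matrix.mul_apply, sum_eq_single q' (fun t _ ht => ?_) (fun h0 => absurd (mem_univ _) h0)]
    · rw [hB, if_pos (h1 ▸ h3), Lay.sh]
      by_cases hi : i = n
      · rw [if_pos hi, if_pos ⟨h1, hi ▸ h2⟩, mul_one]
      · rw [if_neg hi, if_neg fun h4 => hi (by omega), mul_zero]
    · rw [hB, Lay.sh]
      split_ifs with h4 h5
      · exact absurd (Λ.inj _ _ (h5.1.trans h1.symm) (by rw [h4, h5.1, h3])) ht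
      · rw [mul_zero]
      · rw [zero_mul]
      · rw [zero_mul]
  rw [Matrix.sum_apply, sum_eq_single n (fun i _ hi => ?_) fun h0 => absurd (mem_range.2 ?_) h0]
  · rw [Matrix.mul_assoc, Matrix.mul_apply, Λ.toe h p h1 h2 h3]
    exact sum_congr rfl fun r _ => by rw [key, if_pos rfl, Matrix.transpose_apply]
  · rw [Matrix.mul_assoc, Matrix.mul_apply]
    exact sum_eq_zero fun r _ => by rw [key, if_neg hi, mul_zero]
  · have := hK (Λ.s q)
    have := Λ.nn q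
    omega

end Pool.Agent.MP_8be872_ag.H88.Fx
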