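import Pool.Agent.MP_8be872_ag.H63.SpecD
import Pool.Agent.MP_8be872_ag.H88.FxToe

/-! Positions and levels of the basis vectors on the slice. -/

namespace Pool.Agent.MP_8be872_ag.H88.Fx

open Finset H38 H56 H63 MvPolynomial
open scoped Matrix

variable {Q : Quiv} {w v D : Fin Q.n → ℕ}

/-- The combinatorial data. -/
structure Dat (σ : Bas Q v ≃ Bas Q v) (d : Bas Q v → ℕ) (lab : Bas Q D → Bas Q v × ℕ)
    (e : Fin Q.n → ℕ → ℤ) : Prop where
  isLab : IsLab d lab
  vert : ∀ a, (σ a).1 = a.1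
  val : ∀ a, e (σ a).1 (σ a).2 = d a
  ord : ∀ a b, a.1 = b.1 →
    (((σ b).2 : ℕ) < (σ a).2 ↔ d b < d a ∨ (d b = d a ∧ (b.2 : ℕ) < a.2))

/-- Forget the level. -/
def fg (σ : Bas Q v ≃ Bas Q v) (lab : Bas Q D → Bas Q v × ℕ) : Nb Q w v D → Bas Q v ⊕ Bas Q w :=
  Sum.elim (fun τ => .inl (σ (lab τ).1)) (Sum.map σ id)

/-- The top level. -/
def eC (e : Fin Q.n → ℕ → ℤ) : Bas Q v ⊕ Bas Q w → ℤ := Sum.elim (fun a => e a.1 a.2) 0

/-- The vertex. -/
def vC : Bas Q v ⊕ Bas Q w → Fin Q.n := Sum.elim (·.1) (·.1)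

/-- The entries of the matrices on the fixed locus that are generators. -/
inductive Ent (e : Fin Q.n → ℕ → ℤ) : Kd Q → Bas Q v ⊕ Bas Q w → Bas Q v ⊕ Bas Q w →
    Option (Co Q w v) ⊕ Of Q v e → Prop
  | x (ε a b) (h : allowed Q w v e (ε, a, b)) : Ent e (kx ε) a b (.inl (some (ε, a, b)))
  | c (a b) (h : RootP Q v (a, b)) : Ent e kc (.inl a) (.inl b) (.inr (.inl ⟨(a, b), h⟩))
  | η (a b) (h : RelP Q v e (a, b)) : Ent e ke (.inl a) (.inl b) (.inr (.inr ⟨(a, b), h⟩))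

variable {σ : Bas Q v ≃ Bas Q v} {d : Bas Q v → ℕ} {lab : Bas Q D → Bas Q v × ℕ}
  {e : Fin Q.n → ℕ → ℤ}

theorem Ent.un {k k' : Kd Q} {a b a' b' : Bas Q v ⊕ Bas Q w} {g : Option (Co Q w v) ⊕ Of Q v e}
    (h : Ent e k a b g) (h' : Ent e k' a' b' g) : k = k' ∧ a = a' ∧ b = b' := by
  cases h <;> cases h' <;> exact ⟨rfl, rfl, rfl⟩

theorem blk_lt (p : Nb Q w v D) : blk p < 2 ↔ (fg σ lab p).isLeft := by
  rcases p with τ | a | b <;> simp [blk, fg]

theorem blk_eq (p : Nb Q w v D) : blk p = 2 ↔ (fg σ lab p).isRight := by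
  rcases p with τ | a | b <;> simp [blk, fg]

theorem xs_eq (p : Nb Q w v D) : xs σ d lab p = basWt Q w v (fg σ lab p) + lv d lab p • qq := by
  rcases p with τ | a | b <;> rfl

variable (H : Dat σ d lab e)
include H

theorem Dat.eC_inl (a : Bas Q v) : eC (w := w) e (.inl (σ a)) = d a := H.val a

variable (w) in
/-- The levels. -/
def Dat.lay : Lay (Nb Q w v D) (Bas Q v ⊕ Bas Q w) where
  s := fg σ lab
  l := lv d lab
  e := eC e
  inj p p' h1 h2 := by
    rcases p with τ | a | b <;> rcases p' with τ' | a' | b' <;> simp [fg, lv] at h1 h2 ⊢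
    · rw [h1] at h2
      exact H.isLab.inj (Prod.ext h1 (by omega))
    · rw [h1] at h2
      omega
    · rw [h1] at h2
      omega
    · exact h1
    · exact h1
  surj c k h0 h1 := by
    rcases c with a | b
    · obtain ⟨a, rfl⟩ := σ.surjective a
      rw [H.eC_inl] at h1
      rcases h1.eq_or_lt with h | h
      · exact ⟨.inr (.inl a), rfl, h.symm⟩
      · obtain ⟨τ, hτ⟩ := H.isLab.surj a (d a - 1 - k.toNat) (by omega)
        refine ⟨.inl τ, by simp [fg, hτ], ?_⟩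
        simp only [lv, hτ]
        omega
    · exact ⟨.inr (.inr b), rfl, le_antisymm h0 h1⟩
  nn p := by
    rcases p with τ | a | b
    · have := H.isLab.lt τ
      simp only [lv]
      omega
    · simp [lv]
    · rfl
  le p := by
    rcases p with τ | a | b
    · refine le_of_le_of_eq ?_ (H.eC_inl (lab τ).1).symm
      simp only [lv]
      omega
    · exact (H.eC_inl a).ge
    · rfl
  e0 c := by
    rcases c with a | b
    · obtain ⟨a, rfl⟩ := σ.surjective a
      simp [H.eC_inl]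
    · rfl

theorem Dat.top_iff (q : Nb Q w v D) : lv d lab q = eC e (fg σ lab q) ↔ blk q ≠ 0 := by
  rcases q with τ | a | b
  · rw [show eC e (fg σ lab (.inl τ : Nb Q w v D)) = _ from H.eC_inl _]
    simp only [lv, blk, Sum.elim_inl, ne_eq, not_true, iff_false]
    omega
  · exact iff_of_true (H.eC_inl a).symm (by simp [blk])
  · exact iff_of_true rfl (by simp [blk])

theorem Dat.vx_eq (p : Nb Q w v D) : vx p = vC (fg σ lab p) := by
  rcases p with τ | a | b
  · exact ((H.vert _).trans (H.isLab.vert τ)).symm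
  · exact (H.vert a).symm
  · rfl

theorem Dat.al0_eq : al0 lab = (H.lay w).sh ℂ 1 := by
  ext p q
  rcases q with τ | q
  · refine if_congr ?_ rfl rfl
    rcases p with τ' | a | b <;> simp [hp, fg, lv, Dat.lay, Prod.ext_iff]
    · intro h
      rw [h]
      omega
    · rintro rfl
      omega
  · refine (if_neg fun h => ?_).symm
    have h1 := (H.lay w).le p
    have h2 : (H.lay w).l (.inr q) = (H.lay w).e ((H.lay w).s (.inr q)) :=
      (H.top_iff _).2 (by rcases q with a | b <;> simp [blk])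
    rw [h.1, h.2, h2] at h1
    omega

theorem Dat.e_le (c : Bas Q v ⊕ Bas Q w) : (H.lay w).e c ≤ (Fintype.card (Bas Q D) : ℕ) := by
  rcases c with a | b
  · obtain ⟨a, rfl⟩ := σ.surjective a
    refine (H.eC_inl (w := w) a).trans_le (Int.ofNat_le.2 ?_)
    choose t ht using fun k : Fin (d a) => H.isLab.surj a k k.2
    simpa using Fintype.card_le_of_injective t fun k k' h =>
      Fin.ext (Prod.ext_iff.1 ((ht k).symm.trans (h ▸ ht k'))).2
  · exact Int.natCast_nonneg _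

theorem Dat.allowed_iff (ε : Arr Q) (p q : Nb Q w v D) :
    allowed Q w v e (ε, fg σ lab p, fg σ lab q) ↔
      arrow (.inl ε) p q ∧ eC e (fg σ lab q) ≤ eC e (fg σ lab p) := by
  obtain ⟨_ | ε, s⟩ := ε <;> simp only [arrow, H.vx_eq, blk_lt (σ := σ) (lab := lab),
    blk_eq (σ := σ) (lab := lab)] <;> generalize fg σ lab p = a <;> generalize fg σ lab q = b <;>
    cases s <;> rcases a with a | a <;> rcases b with b | b <;> simp [allowed, eC, vC, and_assoc]

theorem Dat.arrow_iff (s : Bool) (p q : Nb Q w v D) : arrow (.inr s) p q ↔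
    ∃ a b, fg σ lab p = .inl a ∧ fg σ lab q = .inl b ∧ a.1 = b.1 := by
  simp only [arrow, H.vx_eq, blk_lt (σ := σ) (lab := lab)]
  generalize fg σ lab p = a
  generalize fg σ lab q = b
  rcases a with a | a <;> rcases b with b | b <;> simp [vC]

theorem Dat.tri {k : Kd Q} {a b : Bas Q v ⊕ Bas Q w} {g : Option (Co Q w v) ⊕ Of Q v e}
    (h : Ent e k a b g) : eC e b ≤ eC e a := by
  cases h with
  | x ε a b h =>
    obtain ⟨p, rfl, -⟩ := (H.lay w).surj a 0 le_rfl ((H.lay w).e0 a)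
    obtain ⟨q, rfl, -⟩ := (H.lay w).surj b 0 le_rfl ((H.lay w).e0 b)
    exact ((H.allowed_iff ε p q).1 h).2
  | c a b h =>
    obtain ⟨a, rfl⟩ := σ.surjective a
    obtain ⟨b, rfl⟩ := σ.surjective b
    have h1 := (H.ord a b ((H.vert a).symm.trans (h.1.trans (H.vert b)))).1 h.2
    rw [H.eC_inl, H.eC_inl]
    omega
  | η a b h => exact h.2

theorem Dat.rad_iff {p q : Nb Q w v D} {a b : Bas Q v} (h1 : fg σ lab p = .inl a)
    (h2 : fg σ lab q = .inl b) (h3 : a.1 = b.1) (h4 : lv d lab p = lv d lab q) (h5 : blk q ≠ 0) :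
    radF p q ↔ (b.2 : ℕ) < a.2 := by
  rcases q with τ | b₀ | b₀
  · exact absurd rfl h5
  · obtain rfl : σ b₀ = b := Sum.inl.inj h2
    rcases p with τ | a₀ | a₀
    · obtain rfl : σ (lab τ).1 = a := Sum.inl.inj h1
      refine iff_of_true (Or.inl (by simp [blk])) ((H.ord _ _
        ((H.vert _).symm.trans (h3.trans (H.vert _)))).2 (Or.inl ?_))
      simp only [lv] at h4
      omega
    · obtain rfl : σ a₀ = a := Sum.inl.inj h1
      rw [H.ord _ _ ((H.vert _).symm.trans (h3.trans (H.vert _)))]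
      simp only [lv] at h4
      simp only [radF, blk, Sum.elim_inr, Sum.elim_inl, lt_self_iff_false, false_or, Sum.inr.injEq,
        Sum.inl.injEq, exists_and_left, exists_eq_left']
      omega
    · cases h1
  · cases h2

theorem Dat.sh_of_ent {k : Kd Q} {p q : Nb Q w v D} {g : Option (Co Q w v) ⊕ Of Q v e}
    (h : Ent e k (fg σ lab p) (fg σ lab q) g) (h1 : lv d lab p = lv d lab q)
    (h2 : k = kc → blk q ≠ 0) : shS lab k p q := by
  have h3 : blk q = 0 → blk p = 0 := fun h0 => of_not_not fun h4 => by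
    have h5 := (H.top_iff p).2 h4
    have h6 := H.tri h
    have h7 := (H.lay w).le q
    exact (H.top_iff q).1 (le_antisymm h7 (by omega)) h0
  generalize ha : fg σ lab p = a at h
  generalize hb : fg σ lab q = b at h
  cases h with
  | x ε a b h => exact ⟨⟨((H.allowed_iff ε p q).1 (ha ▸ hb ▸ h)).1, h3⟩, nofun⟩
  | c a b h =>
    exact ⟨⟨(H.arrow_iff _ p q).2 ⟨a, b, ha, hb, h.1⟩,
      (H.rad_iff ha hb h.1 h1 (h2 rfl)).2 h.2⟩, nofun⟩
  | η a b h => exact ⟨⟨(H.arrow_iff _ p q).2 ⟨a, b, ha, hb, h.1⟩, h3⟩, nofun⟩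

theorem Dat.ent_of_sh {k : Kd Q} {p q : Nb Q w v D} (h : shS lab k p q) (h1 : blk q ≠ 0)
    (h2 : lv d lab p = lv d lab q) : ∃ g, Ent e k (fg σ lab p) (fg σ lab q) g := by
  have h3 : eC e (fg σ lab q) ≤ eC e (fg σ lab p) := by
    rw [← (H.top_iff q).2 h1, ← h2]
    exact (H.lay w).le p
  rcases k with (ε | _ | _) | (ε | _ | _)
  · exact ⟨_, .x ε _ _ ((H.allowed_iff ε p q).2 ⟨h.1.1, h3⟩)⟩
  · exact absurd h.1.2 h1
  · exact absurd h.1.2 h1
  · exact absurd h.1.2 h1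
  · obtain ⟨a, b, ha, hb, h4⟩ := (H.arrow_iff _ p q).1 h.1.1
    rw [ha, hb] at h3 ⊢
    exact ⟨_, .η a b ⟨h4, h3⟩⟩
  · obtain ⟨a, b, ha, hb, h4⟩ := (H.arrow_iff _ p q).1 h.1.1
    rw [ha, hb]
    exact ⟨_, .c a b ⟨h4, (H.rad_iff ha hb h4 h2 h1).1 h.1.2⟩⟩

omit H in
theorem top_of_c {p q : Nb Q w v D} (h : shS lab kc p q) : blk q ≠ 0 := by
  rcases h.1.2 with h | ⟨a, b, -, rfl, -⟩
  · omega
  · simp [blk]

/-- The shape is inherited by the top column. -/
theorem Dat.sh_top {k : Kd Q} (hk : (∃ ε, k = kx ε) ∨ k = ke) {p q p' q' : Nb Q w v D}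
    (h : shS lab k p q) (h1 : fg σ lab p' = fg σ lab p) (h2 : fg σ lab q' = fg σ lab q)
    (h3 : blk q' ≠ 0) : shS lab k p' q' := by
  rcases hk with ⟨⟨_ | ε, s⟩, rfl⟩ | rfl <;> refine ⟨⟨?_, fun h0 => absurd h0 h3⟩, nofun⟩ <;>
    simpa only [Sum.elim_inl, Sum.elim_inr, id, arrow, H.vx_eq, blk_lt (σ := σ) (lab := lab),
      blk_eq (σ := σ) (lab := lab), h1, h2] using h.1.1

end Pool.Agent.MP_8be872_ag.H88.Fx
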